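import Pool.Agent.Lib.MP_17a322_ntU2.Defs0
import Pool.Agent.Lib.MP_17a322_nt.VA.N5

/-!
uv2, leaf B1: an upper bound for the Hilbert function.
-/

universe u

namespace UVB

open MvPolynomial
open Pool.Agent.Lib.MP_17a322_nt.VA

/-- The combinations of the generators with coefficients of degree at most `k * δ`. -/
private def B1_Q (K : Type u) [Field K] {F : Type u} [Field F] [Algebra K F] {n e : ℕ} (W : Fin (e + 1) → F) (s : Fin n → F)
    (δ k : ℕ) (x : F) : Prop :=
  ∃ q : Fin (e + 1) → MvPolynomial (Fin n) K, (∀ r, (q r).totalDegree ≤ k * δ) ∧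
    x = ∑ r, W r * aeval s (q r)

private theorem B1_step {K : Type u} [Field K] {F : Type u} [Field F] [Algebra K F] {N n e : ℕ}
    (W : Fin (e + 1) → F) (s : Fin n → F) (g : Fin (N + 1) → F)
    (M : Fin (N + 1) → Matrix (Fin (e + 1)) (Fin (e + 1)) (MvPolynomial (Fin n) K)) {δ : ℕ}
    (hδ : ∀ j r m, (M j r m).totalDegree ≤ δ)
    (hrel : ∀ j m, ∑ r, W r * aeval s (M j r m) = g j * W m) {k : ℕ} {x : F}
    (hx : B1_Q K W s δ k x) (j : Fin (N + 1)) : B1_Q K W s δ (k + 1) (g j * x) := by
  obtain ⟨q, hq, rfl⟩ := hx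
  refine ⟨fun r => ∑ m, M j r m * q m, ?_, ?_⟩
  · intro r
    refine MvPolynomial.totalDegree_finsetSum_le ?_
    intro m _
    refine (MvPolynomial.totalDegree_mul _ _).trans ?_
    have h1 := hδ j r m
    have h2 := hq m
    have h3 : (k + 1) * δ = k * δ + δ := by ring
    omega
  · have h1 : ∀ r, W r * aeval s (∑ m, M j r m * q m) =
        ∑ m, (W r * aeval s (M j r m)) * aeval s (q m) := by
      intro r
      rw [map_sum, Finset.mul_sum]
      refine Finset.sum_congr rfl fun m _ => ?_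
      rw [map_mul, mul_assoc]
    rw [Finset.sum_congr rfl fun r _ => h1 r, Finset.sum_comm, Finset.mul_sum]
    refine Finset.sum_congr rfl fun m _ => ?_
    rw [← Finset.sum_mul, hrel, mul_assoc]

private theorem B1_pow {K : Type u} [Field K] {F : Type u} [Field F] [Algebra K F] {N n e : ℕ}
    (W : Fin (e + 1) → F) (s : Fin n → F) (g : Fin (N + 1) → F)
    (M : Fin (N + 1) → Matrix (Fin (e + 1)) (Fin (e + 1)) (MvPolynomial (Fin n) K)) {δ : ℕ}
    (hδ : ∀ j r m, (M j r m).totalDegree ≤ δ)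
    (hrel : ∀ j m, ∑ r, W r * aeval s (M j r m) = g j * W m) {k : ℕ} {x : F}
    (hx : B1_Q K W s δ k x) (j : Fin (N + 1)) (a : ℕ) : B1_Q K W s δ (k + a) (g j ^ a * x) := by
  induction a with
  | zero => simpa using hx
  | succ a ih =>
    have h := B1_step W s g M hδ hrel ih j
    rw [← mul_assoc, ← pow_succ'] at h
    exact h

private theorem B1_prod {K : Type u} [Field K] {F : Type u} [Field F] [Algebra K F] {N n e : ℕ}
    (W : Fin (e + 1) → F) (s : Fin n → F) (g : Fin (N + 1) → F)
    (M : Fin (N + 1) → Matrix (Fin (e + 1)) (Fin (e + 1)) (MvPolynomial (Fin n) K)) {δ : ℕ}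
    (hδ : ∀ j r m, (M j r m).totalDegree ≤ δ) (hW : W 0 = 1)
    (hrel : ∀ j m, ∑ r, W r * aeval s (M j r m) = g j * W m) (μ : Fin (N + 1) → ℕ)
    (S : Finset (Fin (N + 1))) :
    B1_Q K W s δ (∑ i ∈ S, μ i) (∏ i ∈ S, g i ^ μ i) := by
  classical
  induction S using Finset.induction_on with
  | empty =>
    rw [Finset.sum_empty, Finset.prod_empty]
    refine ⟨fun r => if r = 0 then 1 else 0, ?_, ?_⟩
    · intro r
      dsimp only
      split_ifs
      · rw [MvPolynomial.totalDegree_one]; exact Nat.zero_le _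
      · rw [MvPolynomial.totalDegree_zero]; exact Nat.zero_le _
    · rw [Finset.sum_eq_single (0 : Fin (e + 1))]
      · dsimp only
        rw [if_pos rfl, hW, map_one, one_mul]
      · intro b _ hb
        dsimp only
        rw [if_neg hb, map_zero, mul_zero]
      · intro h; exact absurd (Finset.mem_univ _) h
  | insert a S ha ih =>
    rw [Finset.sum_insert ha, Finset.prod_insert ha, add_comm]
    exact B1_pow W s g M hδ hrel ih a (μ a)

private theorem B1_mem {K : Type u} [Field K] {F : Type u} [Field F] [Algebra K F] {n e : ℕ}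
    (W : Fin (e + 1) → F) (s : Fin n → F) {δ k : ℕ} {x : F} (hx : B1_Q K W s δ k x) (c : F) :
    c * x ∈ Submodule.span K (Set.range fun p : Fin (e + 1) × (Fin n → Fin (k * δ + 1)) =>
      c * (W p.1 * ∏ l, s l ^ (p.2 l : ℕ))) := by
  obtain ⟨q, hq, rfl⟩ := hx
  rw [Finset.mul_sum]
  refine Submodule.sum_mem _ fun r _ => ?_
  rw [MvPolynomial.aeval_def, MvPolynomial.eval₂_eq, Finset.mul_sum, Finset.mul_sum]
  refine Submodule.sum_mem _ fun d hd => ?_
  have hle : ∀ l, d l < k * δ + 1 := by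
    intro l
    have h1 : (d.sum fun _ a => a) ≤ (q r).totalDegree := MvPolynomial.le_totalDegree hd
    have h2 : d l ≤ d.sum fun _ a => a := by
      by_cases h0 : d l = 0
      · rw [h0]; exact Nat.zero_le _
      · exact Finset.single_le_sum (f := fun i => d i) (fun _ _ => Nat.zero_le _)
          (Finsupp.mem_support_iff.2 h0)
    have h3 := hq r
    omega
  have h4 : c * (W r * (algebraMap K F (MvPolynomial.coeff d (q r)) * ∏ i ∈ d.support, s i ^ d i)) =
      MvPolynomial.coeff d (q r) • (c * (W r * ∏ l, s l ^ (d l))) := by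
    rw [Algebra.smul_def]
    have h5 : (∏ i ∈ d.support, s i ^ d i) = ∏ l, s l ^ (d l) := by
      refine Finset.prod_subset (Finset.subset_univ _) fun i _ hi => ?_
      rw [Finsupp.notMem_support_iff.1 hi, pow_zero]
    rw [h5]
    ring
  rw [h4]
  refine Submodule.smul_mem _ _ (Submodule.subset_span ⟨(r, fun l => ⟨d l, hle l⟩), rfl⟩)

/-- The forms of degree `k` restricted to a variety of dimension `n` form a space of dimension at most `C (k + 1) ^ n`; `B.gp` are the
coordinates of the generic point.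

PROOF.  `B.gp ≠ 0` (`AV.gp_ne`), so there is a linear form `l` with `lf l B.gp ≠ 0` (a coordinate, `lf_single`); let `nd : Noe B n e`
with `nd.l 0 = l` (`AV.exists_Noe`, VA/N5), `g = B.ga l` (`g a = B.gp a / lf l B.gp`, `AV.gp_eq`), `B.IsPt g` (`AV.ga_isPt`), `lf l g = 1`
(`AV.lf_ga`), `s k = lf (nd.l k.succ) g`, `W r = aeval g (nd.w r)`.  Let `δ` be a bound for the total degrees of the entries of the
matrices `nd.Mx j`.  By induction on the length, a product of `k` coordinates `g j` is of the form `∑ r, W r * aeval s (q r)` with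
`q r ∈ MvPolynomial (Fin n) K` of total degree at most `k δ` (start: `1 = W 0` (`nd.w_zero`); step: `nd.rel`, which says
`g j * W m = ∑ r, W r * aeval s (nd.Mx j r m)`).  So the monomials `∏ i, g i ^ μ i`, `μ` of degree `k`, lie in the span of the elements
`W r * ∏ l, s l ^ ν l`, `r : Fin (e + 1)`, `ν l ≤ k δ` (`ν : Fin n → Fin (k δ + 1)`), which has dimension at most `(e + 1) (k δ + 1) ^ n`
(`finrank_range_le_card`, `Submodule.finrank_mono` in a finite-dimensional span); and `∏ i, B.gp i ^ μ i = (lf l B.gp) ^ k ∏ i, g i ^ μ i`: the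
multiplication by the fixed nonzero element `(lf l B.gp) ^ k` is a `K`-linear isomorphism (or multiply the spanning elements by it).
`C = (e + 1) (δ + 1) ^ n`, `k δ + 1 ≤ (δ + 1) (k + 1)`. -/
theorem B1 {K : Type u} [Field K] [CharZero K] {N : ℕ} (B : AV K N) {n : ℕ} (hn : B.dimIs n) :
    ∃ C : ℕ, ∀ k : ℕ, Module.finrank K (Submodule.span K
      (Set.range fun μ : Mo N k => ∏ i, B.gp i ^ (μ.1 i : ℕ))) ≤ C * (k + 1) ^ n := by
  classical
  have hne : ∃ a, B.gp a ≠ 0 := by
    by_contra h
    push Not at h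
    exact B.gp_ne (funext h)
  obtain ⟨a, ha⟩ := hne
  have hl : lf (Pi.single a (1 : K)) B.gp ≠ 0 := by
    rw [lf_single]
    exact ha
  obtain ⟨e, nd, hnd⟩ := AV.exists_Noe hn hl
  set l : Fin (N + 1) → K := Pi.single a (1 : K) with hldef
  set g := B.ga l with hg
  set s : Fin n → B.FF := fun k => lf (nd.l k.succ) g with hs
  set W : Fin (e + 1) → B.FF := fun r => aeval g (nd.w r) with hW
  set δ : ℕ := ∑ j, ∑ r, ∑ m, (nd.Mx j r m).totalDegree with hδ
  have hδ1 : ∀ j r m, (nd.Mx j r m).totalDegree ≤ δ := by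
    intro j r m
    have h1 : (nd.Mx j r m).totalDegree ≤ ∑ m, (nd.Mx j r m).totalDegree :=
      Finset.single_le_sum (f := fun m => (nd.Mx j r m).totalDegree) (fun _ _ => Nat.zero_le _)
        (Finset.mem_univ m)
    have h2 : (∑ m, (nd.Mx j r m).totalDegree) ≤ ∑ r, ∑ m, (nd.Mx j r m).totalDegree :=
      Finset.single_le_sum (f := fun r => ∑ m, (nd.Mx j r m).totalDegree)
        (fun _ _ => Nat.zero_le _) (Finset.mem_univ r)
    have h3 : (∑ r, ∑ m, (nd.Mx j r m).totalDegree) ≤ δ :=
      Finset.single_le_sum (f := fun j => ∑ r, ∑ m, (nd.Mx j r m).totalDegree)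
        (fun _ _ => Nat.zero_le _) (Finset.mem_univ j)
    exact h1.trans (h2.trans h3)
  have hlg : lf (nd.l 0) g = 1 := by
    rw [hnd]
    exact AV.lf_ga hl
  have hrel : ∀ j m, ∑ r, W r * aeval s (nd.Mx j r m) = g j * W m := fun j m =>
    nd.rel B.FF g (AV.ga_isPt l) hlg j m
  have hW0 : W 0 = 1 := by
    rw [hW]
    dsimp only
    rw [nd.w_zero, map_one]
  refine ⟨(e + 1) * (δ + 1) ^ n, fun k => ?_⟩
  set c : B.FF := lf l B.gp ^ k with hc
  set T : Fin (e + 1) × (Fin n → Fin (k * δ + 1)) → B.FF := fun p =>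
    c * (W p.1 * ∏ l, s l ^ (p.2 l : ℕ)) with hT
  have hsub : Submodule.span K (Set.range fun μ : Mo N k => ∏ i, B.gp i ^ (μ.1 i : ℕ)) ≤
      Submodule.span K (Set.range T) := by
    rw [Submodule.span_le]
    rintro _ ⟨μ, rfl⟩
    have h1 : (∏ i, B.gp i ^ (μ.1 i : ℕ)) = c * ∏ i, g i ^ (μ.1 i : ℕ) := by
      have h2 : ∀ i, B.gp i = lf l B.gp * g i := fun i => congrFun (AV.gp_eq hl) i
      have h6 : lf l B.gp ^ k = ∏ i, lf l B.gp ^ (μ.1 i : ℕ) := by
        rw [Finset.prod_pow_eq_pow_sum]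
        exact congrArg (fun t => lf l B.gp ^ t) μ.2.symm
      rw [hc, h6, ← Finset.prod_mul_distrib]
      refine Finset.prod_congr rfl fun i _ => ?_
      rw [← mul_pow, ← h2]
    have h3 := B1_prod W s g nd.Mx hδ1 hW0 hrel (fun i => (μ.1 i : ℕ)) Finset.univ
    rw [μ.2] at h3
    have h4 := B1_mem W s h3 c
    dsimp only
    rw [h1]
    exact h4
  have hfin : Module.Finite K (Submodule.span K (Set.range T)) :=
    Module.Finite.span_of_finite K (Set.finite_range T)
  have h1 := Submodule.finrank_mono hsub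
  have h2 : Module.finrank K (Submodule.span K (Set.range T)) ≤
      Fintype.card (Fin (e + 1) × (Fin n → Fin (k * δ + 1))) := finrank_range_le_card T
  refine (h1.trans h2).trans ?_
  rw [Fintype.card_prod, Fintype.card_fun, Fintype.card_fin, Fintype.card_fin, Fintype.card_fin,
    mul_assoc, ← mul_pow]
  refine Nat.mul_le_mul_left _ (Nat.pow_le_pow_left ?_ n)
  nlinarith [Nat.zero_le δ, Nat.zero_le k]

end UVB
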