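import Pool.Agent.Lib.MP_17a322_ntU2.DefsB
import Pool.Agent.Lib.MP_17a322_ntU2.B1

/-!
uv2, leaf B2: algebraic relations of bounded degree on all translates.
-/

universe u

namespace UVB

open MvPolynomial
open Pool.Agent.Lib.MP_17a322_nt.VA

/-- A form of degree `k` in the coordinates whose value at the generic point is zero vanishes at all points.  PROOF.  `AV.gp_zero_iff`
(VA/N1): it is in `B.I`; then `b.2` (`aeval (B.x b) f = 0` for `f ∈ B.I`). -/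
theorem B2a {K : Type u} [Field K] {N : ℕ} (B : AV K N) (F : MvPolynomial (Fin (N + 1)) K)
    (hF : aeval B.gp F = 0) {L : Type u} [Field L] [Algebra K L] (b : B.Pts L) :
    aeval (B.x b) F = 0 :=
  b.2 F ((B.gp_zero_iff F).1 hF)

/-- The quadratic form of the leaf. -/
private noncomputable def B2_q {K : Type u} [Field K] {N : ℕ} (A : AV K N) (x : Fin (N + 1) → K)
    (c' a : Fin (N + 1)) : MvPolynomial (Fin (N + 1)) K :=
  aeval (Sum.elim X (fun i => C (x i))) (A.S a c')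

private theorem B2_q_homog {K : Type u} [Field K] {N : ℕ} (A : AV K N) (x : Fin (N + 1) → K)
    (c' a : Fin (N + 1)) : (B2_q A x c' a).IsHomogeneous 2 := by
  unfold B2_q
  rw [aeval_def, eval₂_eq']
  refine IsHomogeneous.sum _ _ _ fun m hm => ?_
  obtain ⟨h1, -⟩ := A.bihomog a c' m hm
  rw [Fintype.prod_sum_type]
  simp only [Sum.elim_inl, Sum.elim_inr]
  have e1 : (algebraMap K (MvPolynomial (Fin (N + 1)) K) (coeff m (A.S a c'))).IsHomogeneous 0 :=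
    isHomogeneous_C _ _
  have e2 : (∏ i, (X i : MvPolynomial (Fin (N + 1)) K) ^ m (Sum.inl i)).IsHomogeneous
      (∑ i, 1 * m (Sum.inl i)) :=
    IsHomogeneous.prod _ _ _ fun i _ => (isHomogeneous_X K i).pow _
  have e3 : (∏ i, (C (x i) : MvPolynomial (Fin (N + 1)) K) ^ m (Sum.inr i)).IsHomogeneous
      (∑ i, 0 * m (Sum.inr i)) :=
    IsHomogeneous.prod _ _ _ fun i _ => (isHomogeneous_C (Fin (N + 1)) (x i)).pow _
  have e4 := e1.mul (e2.mul e3)
  have e5 : 0 + (∑ i, 1 * m (Sum.inl i) + ∑ i, 0 * m (Sum.inr i)) = 2 := by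
    simp only [one_mul, zero_mul, Finset.sum_const_zero, zero_add, add_zero]
    exact h1
  rw [e5] at e4
  exact e4

private theorem B2_q_eval {K : Type u} [Field K] {N : ℕ} (A : AV K N) (x : Fin (N + 1) → K)
    (c' a : Fin (N + 1)) {L : Type u} [Field L] [Algebra K L] (y : Fin (N + 1) → L) :
    aeval y (B2_q A x c' a) =
      aeval (Sum.elim y (fun i => algebraMap K L (x i))) (A.S a c') := by
  unfold B2_q
  have h : ((aeval y : MvPolynomial (Fin (N + 1)) K →ₐ[K] L).comp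
      (aeval (Sum.elim X (fun i => C (x i))) :
        MvPolynomial (Fin (N + 1) ⊕ Fin (N + 1)) K →ₐ[K] MvPolynomial (Fin (N + 1)) K)) =
      aeval (Sum.elim y (fun i => algebraMap K L (x i))) := by
    apply MvPolynomial.algHom_ext
    intro i
    rw [AlgHom.comp_apply, aeval_X, aeval_X]
    cases i with
    | inl i => rw [Sum.elim_inl, Sum.elim_inl, aeval_X]
    | inr i => rw [Sum.elim_inr, Sum.elim_inr, aeval_C]
  rw [← h, AlgHom.comp_apply]

private theorem B2_fv_homog {K : Type u} [Field K] {N n : ℕ} (c : Mo N n → K)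
    (q : Fin (N + 1) → MvPolynomial (Fin (N + 1)) K) (hq : ∀ i, (q i).IsHomogeneous 2) :
    (fv (fun μ => (C (c μ) : MvPolynomial (Fin (N + 1)) K)) q).IsHomogeneous (2 * n) := by
  unfold fv
  refine IsHomogeneous.sum _ _ _ fun μ _ => ?_
  have e1 := (isHomogeneous_C (Fin (N + 1)) (c μ)).mul
    (IsHomogeneous.prod Finset.univ (fun i => q i ^ (μ.1 i : ℕ)) (fun i => 2 * (μ.1 i : ℕ))
      fun i _ => (hq i).pow _)
  have e2 : 0 + ∑ i, 2 * (μ.1 i : ℕ) = 2 * n := by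
    rw [zero_add, ← Finset.mul_sum, μ.2]
  rw [e2] at e1
  exact e1

private theorem B2_fv_eval {K : Type u} [Field K] {N n : ℕ} (c : Mo N n → K)
    (q : Fin (N + 1) → MvPolynomial (Fin (N + 1)) K) {L : Type u} [Field L] [Algebra K L]
    (y : Fin (N + 1) → L) :
    aeval y (fv (fun μ => (C (c μ) : MvPolynomial (Fin (N + 1)) K)) q) =
      fv (fun μ => algebraMap K L (c μ)) (fun i => aeval y (q i)) := by
  unfold fv
  rw [map_sum]
  refine Finset.sum_congr rfl fun μ _ => ?_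
  rw [map_mul, aeval_C, map_prod]
  congr 1
  refine Finset.prod_congr rfl fun i _ => ?_
  rw [map_pow]

private theorem B2_fv_smul {L : Type u} [Field L] {N n : ℕ} (c : Mo N n → L) (ρ : L)
    (y : Fin (N + 1) → L) : fv c (fun i => ρ * y i) = ρ ^ n * fv c y := by
  unfold fv
  rw [Finset.mul_sum]
  refine Finset.sum_congr rfl fun μ _ => ?_
  have e1 : ∏ i, (ρ * y i) ^ (μ.1 i : ℕ) = ρ ^ n * ∏ i, y i ^ (μ.1 i : ℕ) := by
    simp only [mul_pow, Finset.prod_mul_distrib]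
    rw [Finset.prod_pow_eq_pow_sum, μ.2]
  rw [e1]
  ring

private theorem B2_mem {K : Type u} [Field K] {N : ℕ} {F : Type u} [Field F] [Algebra K F]
    (g : Fin (N + 1) → F) {k : ℕ} {f : MvPolynomial (Fin (N + 1)) K} (hf : f.IsHomogeneous k) :
    aeval g f ∈ Submodule.span K (Set.range fun μ : Mo N k => ∏ i, g i ^ (μ.1 i : ℕ)) := by
  rw [aeval_def, eval₂_eq']
  refine Submodule.sum_mem _ fun m hm => ?_
  have h1 : ∑ i, m i = k := by
    have h2 := hf (mem_support_iff.mp hm)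
    rw [← h2, Finsupp.weight_apply, Finsupp.sum_fintype]
    · simp
    · intro i
      simp
  have h3 : ∀ i, m i < k + 1 := by
    intro i
    have h4 : m i ≤ ∑ i, m i := Finset.single_le_sum (fun _ _ => Nat.zero_le _) (Finset.mem_univ i)
    omega
  rw [← Algebra.smul_def]
  refine Submodule.smul_mem _ _ (Submodule.subset_span ?_)
  exact ⟨⟨fun i => ⟨m i, h3 i⟩, h1⟩, rfl⟩

/-- The form of the leaf. -/
private noncomputable def B2_F {K : Type u} [Field K] {N m Δ : ℕ} (n : ℕ)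
    (q : Fin (N + 1) → MvPolynomial (Fin (N + 1)) K) (i₀ j₀ : Fin (N + 1))
    (I : Fin m → Fin (N + 1)) (c₁ c₂ : Mo N n → K)
    (s : Fin (Δ + 1) × Fin (Δ + 1) × (Fin m → Fin (Δ + 1))) : MvPolynomial (Fin (N + 1)) K :=
  fv (fun μ => C (c₁ μ)) q ^ (s.1 : ℕ) * fv (fun μ => C (c₂ μ)) q ^ (s.2.1 : ℕ) *
    q i₀ ^ (n * (2 * Δ - s.1 - s.2.1)) * (∏ k, X (I k) ^ (s.2.2 k : ℕ)) *
      X j₀ ^ (m * Δ - ∑ k, (s.2.2 k : ℕ))

private theorem B2_sum_le {m Δ : ℕ} (μ : Fin m → Fin (Δ + 1)) : ∑ k, (μ k : ℕ) ≤ m * Δ := by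
  have h := Finset.sum_le_card_nsmul (Finset.univ : Finset (Fin m)) (fun k => (μ k : ℕ)) Δ
    fun k _ => Nat.lt_succ_iff.1 (μ k).2
  rwa [Finset.card_univ, Fintype.card_fin, smul_eq_mul] at h

private theorem B2_ij {Δ : ℕ} (i j : Fin (Δ + 1)) :
    (i : ℕ) + j + (2 * Δ - i - j) = 2 * Δ := by
  have h1 := i.2
  have h2 := j.2
  omega

private theorem B2_F_homog {K : Type u} [Field K] {N m Δ : ℕ} (n : ℕ)
    (q : Fin (N + 1) → MvPolynomial (Fin (N + 1)) K) (hq : ∀ i, (q i).IsHomogeneous 2)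
    (i₀ j₀ : Fin (N + 1)) (I : Fin m → Fin (N + 1)) (c₁ c₂ : Mo N n → K)
    (s : Fin (Δ + 1) × Fin (Δ + 1) × (Fin m → Fin (Δ + 1))) :
    (B2_F n q i₀ j₀ I c₁ c₂ s).IsHomogeneous (4 * n * Δ + m * Δ) := by
  unfold B2_F
  have e1 := (B2_fv_homog c₁ q hq).pow (s.1 : ℕ)
  have e2 := (B2_fv_homog c₂ q hq).pow (s.2.1 : ℕ)
  have e3 := (hq i₀).pow (n * (2 * Δ - s.1 - s.2.1))
  have e4 : (∏ k, (X (I k) : MvPolynomial (Fin (N + 1)) K) ^ (s.2.2 k : ℕ)).IsHomogeneous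
      (∑ k, 1 * (s.2.2 k : ℕ)) :=
    IsHomogeneous.prod _ _ _ fun k _ => (isHomogeneous_X K (I k)).pow _
  have e5 := (isHomogeneous_X K j₀).pow (m * Δ - ∑ k, (s.2.2 k : ℕ))
  have e6 := (((e1.mul e2).mul e3).mul e4).mul e5
  have e7 : 2 * n * (s.1 : ℕ) + 2 * n * (s.2.1 : ℕ) + 2 * (n * (2 * Δ - s.1 - s.2.1)) +
      ∑ k, 1 * (s.2.2 k : ℕ) + 1 * (m * Δ - ∑ k, (s.2.2 k : ℕ)) = 4 * n * Δ + m * Δ := by
    have h1 := B2_ij s.1 s.2.1
    have h2 := B2_sum_le s.2.2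
    simp only [one_mul]
    have h3 : 2 * n * (s.1 : ℕ) + 2 * n * (s.2.1 : ℕ) + 2 * (n * (2 * Δ - s.1 - s.2.1)) =
        2 * n * ((s.1 : ℕ) + s.2.1 + (2 * Δ - s.1 - s.2.1)) := by ring
    rw [h3, h1]
    have h4 : 2 * n * (2 * Δ) = 4 * n * Δ := by ring
    rw [h4, add_assoc, Nat.add_sub_cancel' h2]
  rw [e7] at e6
  exact e6

private theorem B2_F_eval {K : Type u} [Field K] {N m Δ : ℕ} (n : ℕ)
    (q : Fin (N + 1) → MvPolynomial (Fin (N + 1)) K)
    (i₀ j₀ : Fin (N + 1)) (I : Fin m → Fin (N + 1)) (c₁ c₂ : Mo N n → K)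
    (s : Fin (Δ + 1) × Fin (Δ + 1) × (Fin m → Fin (Δ + 1)))
    {L : Type u} [Field L] [Algebra K L] (x y : Fin (N + 1) → L) (ρ : L)
    (h : ∀ i, aeval x (q i) = ρ * y i) :
    aeval x (B2_F n q i₀ j₀ I c₁ c₂ s) = ρ ^ (n * (2 * Δ)) *
      (fv (fun μ => algebraMap K L (c₁ μ)) y ^ (s.1 : ℕ) *
        fv (fun μ => algebraMap K L (c₂ μ)) y ^ (s.2.1 : ℕ) *
          y i₀ ^ (n * (2 * Δ - s.1 - s.2.1)) *
            (∏ k, x (I k) ^ (s.2.2 k : ℕ)) * x j₀ ^ (m * Δ - ∑ k, (s.2.2 k : ℕ))) := by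
  unfold B2_F
  rw [map_mul, map_mul, map_mul, map_mul, map_pow, map_pow, map_pow, map_pow, map_prod,
    B2_fv_eval, B2_fv_eval, aeval_X]
  have h1 : (fun i => aeval x (q i)) = fun i => ρ * y i := funext h
  rw [h1, B2_fv_smul, B2_fv_smul, h i₀]
  have h2 : (∏ k, aeval x ((X (I k) : MvPolynomial (Fin (N + 1)) K) ^ (s.2.2 k : ℕ))) =
      ∏ k, x (I k) ^ (s.2.2 k : ℕ) :=
    Finset.prod_congr rfl fun k _ => by rw [map_pow, aeval_X]
  have h3 : ρ ^ (n * (2 * Δ)) = ρ ^ (n * (s.1 : ℕ)) * ρ ^ (n * (s.2.1 : ℕ)) *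
      ρ ^ (n * (2 * Δ - s.1 - s.2.1)) := by
    rw [← pow_add, ← pow_add, ← mul_add, ← mul_add, B2_ij s.1 s.2.1]
  rw [h2, h3, mul_pow (ρ ^ n), mul_pow (ρ ^ n), mul_pow ρ, ← pow_mul, ← pow_mul]
  ring

private theorem B2_count {N m n C Δ : ℕ} (hΔ : Δ = (N + 1) * C * (4 * n + m + 1) ^ (m + 1)) :
    (N + 1) * (C * (4 * n * Δ + m * Δ + 1) ^ (m + 1)) < (Δ + 1) * ((Δ + 1) * (Δ + 1) ^ m) := by
  have h1 : 4 * n * Δ + m * Δ + 1 ≤ (4 * n + m + 1) * (Δ + 1) := by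
    have : (4 * n + m + 1) * (Δ + 1) = 4 * n * Δ + m * Δ + 1 + (Δ + 4 * n + m) := by ring
    omega
  have h2 : (4 * n * Δ + m * Δ + 1) ^ (m + 1) ≤ ((4 * n + m + 1) * (Δ + 1)) ^ (m + 1) :=
    Nat.pow_le_pow_left h1 _
  have h3 : (N + 1) * (C * (4 * n * Δ + m * Δ + 1) ^ (m + 1)) ≤ Δ * (Δ + 1) ^ (m + 1) := by
    calc (N + 1) * (C * (4 * n * Δ + m * Δ + 1) ^ (m + 1))
        ≤ (N + 1) * (C * ((4 * n + m + 1) * (Δ + 1)) ^ (m + 1)) :=
          Nat.mul_le_mul_left _ (Nat.mul_le_mul_left _ h2)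
      _ = ((N + 1) * C * (4 * n + m + 1) ^ (m + 1)) * (Δ + 1) ^ (m + 1) := by
          rw [mul_pow]
          ring
      _ = Δ * (Δ + 1) ^ (m + 1) := by rw [← hΔ]
  have h4 : Δ * (Δ + 1) ^ (m + 1) < (Δ + 1) * (Δ + 1) ^ (m + 1) :=
    Nat.mul_lt_mul_of_pos_right (Nat.lt_succ_self Δ) (Nat.pow_pos (Nat.succ_pos Δ))
  have h5 : (Δ + 1) * (Δ + 1) ^ (m + 1) = (Δ + 1) * ((Δ + 1) * (Δ + 1) ^ m) := by
    rw [pow_succ' (Δ + 1) m]
  rw [← h5]
  exact lt_of_le_of_lt h3 h4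

/-- RELATIONS.  `B` has dimension `m + 1`.  There is `Δ` such that for ALL translates `w + B` and all forms `g₁`, `g₂` of degree `n` with
coefficients `c₁`, `c₂` there is a nontrivial relation of degree at most `Δ` in each variable between the `m + 2` functions
`g₁(y) / y_{i₀} ^ n`, `g₂(y) / y_{i₀} ^ n` (`y = w + b`) and `b_{I k} / b_{j₀}` of `b` in `B`, in homogeneous form.

PROOF (dimension count).  Let `C` be the constant of B1 and `Δ = (N + 1) * C * (4 * n + m + 1) ^ (m + 1)`.  Let `k = 4 n Δ + m Δ`,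
so `k + 1 ≤ (4 n + m + 1) (Δ + 1)`.  For `c' : Fin (N + 1)` let `q_{c'} a ∈ MvPolynomial (Fin (N + 1)) K` be the quadratic form in `b` obtained from
`A.S a c'` by substituting the coordinates `A.x w` of `w` for the second variables
(`aeval (Sum.elim X (fun i => C (A.x w i)))`; homogeneous of degree `2` by `A.bihomog`).  For
`s = (i, j, μ) ∈ Fin (Δ + 1) × Fin (Δ + 1) × (Fin m → Fin (Δ + 1))` let
`F_{c', s} = (fv c₁ q_{c'}) ^ i * (fv c₂ q_{c'}) ^ j * (q_{c'} i₀) ^ (n (2 Δ - i - j)) * ∏ k, X (I k) ^ μ k * X j₀ ^ (m Δ - ∑ μ)`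
(coefficients through `C`), homogeneous of degree `4 n Δ + m Δ = k` in `b`, so `aeval B.gp F_{c', s}` is in the space `V_k` of B1 (a
homogeneous polynomial of degree `k` is a linear combination of the monomials of degree `k`).  The linear map
`Φ ↦ (∑ s, Φ s • aeval B.gp F_{c', s})_{c'}` from a space of dimension `(Δ + 1) ^ (m + 2)` to `V_k ^ (N + 1)`, of dimension at most
`(N + 1) C (k + 1) ^ (m + 1) ≤ (N + 1) C (4 n + m + 1) ^ (m + 1) (Δ + 1) ^ (m + 1) < (Δ + 1) ^ (m + 2)`, has a nontrivial kernel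
(`LinearMap.exists_ne_zero_of_finrank_lt` or `LinearMap.ker_ne_bot_of_finrank_lt`).  Let `Φ ≠ 0` be in the kernel and `b ∈ B(L)`.  `w'` the image of `w`
in `A(L)`, `b' = hB.inc L b`, `A.x b' = B.x b`.  By `A.spec` for `P = b'`, `Q = w'` there is `γ ≠ 0` with
`aeval (Sum.elim (A.x b') (A.x w')) (A.S a c') = γ * (A.x (b' + w') a * A.x (b' - w') c')` for all `a`, `c'`; choose `c'` with
`A.x (b' - w') c' ≠ 0`.  `A.x w'` is a nonzero multiple `θ` of the image of `A.x w` (`AV.img_rep`, `IsImg`).  So `q_{c'} a` at `b` is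
`θ⁻² γ (A.x (b' - w') c') * yw hB w b a = ρ * y a` with `ρ ≠ 0` (`A.S` is of degree `2` in the second variables; `b' + w' = w' + b'`).  By B2a
`0 = ∑ s, Φ s F_{c', s} (b) = ρ ^ (2 n Δ) ∑ s, Φ s (fv c₁ y) ^ i (fv c₂ y) ^ j y_{i₀} ^ (n (2 Δ - i - j)) ...`: the claim. -/
theorem B2 {K : Type u} [Field K] [CharZero K] {N : ℕ} {A B : AV K N} (hB : IsSubAV B A) {m : ℕ}
    (hm : B.dimIs (m + 1)) (n : ℕ) : ∃ Δ : ℕ, ∀ (w : A.Pts K) (i₀ j₀ : Fin (N + 1))
      (I : Fin m → Fin (N + 1)) (c₁ c₂ : Mo N n → K),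
      ∃ Φ : Fin (Δ + 1) × Fin (Δ + 1) × (Fin m → Fin (Δ + 1)) → K, Φ ≠ 0 ∧
        ∀ (L : Type u) [Field L] [Algebra K L] (b : B.Pts L),
          ∑ s, algebraMap K L (Φ s) *
            (fv (fun μ => algebraMap K L (c₁ μ)) (yw hB w b) ^ (s.1 : ℕ) *
              fv (fun μ => algebraMap K L (c₂ μ)) (yw hB w b) ^ (s.2.1 : ℕ) *
                yw hB w b i₀ ^ (n * (2 * Δ - s.1 - s.2.1)) *
                  (∏ k, B.x b (I k) ^ (s.2.2 k : ℕ)) *
                    B.x b j₀ ^ (m * Δ - ∑ k, (s.2.2 k : ℕ))) = 0 := by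
  obtain ⟨C', hC⟩ := B1 B hm
  obtain ⟨Δ, hΔ⟩ : ∃ Δ : ℕ, Δ = (N + 1) * C' * (4 * n + m + 1) ^ (m + 1) := ⟨_, rfl⟩
  refine ⟨Δ, fun w i₀ j₀ I c₁ c₂ => ?_⟩
  let k : ℕ := 4 * n * Δ + m * Δ
  let V : Submodule K B.FF := Submodule.span K
    (Set.range fun μ : Mo N k => ∏ i, B.gp i ^ (μ.1 i : ℕ))
  let G : Fin (N + 1) → (Fin (Δ + 1) × Fin (Δ + 1) × (Fin m → Fin (Δ + 1))) →
      MvPolynomial (Fin (N + 1)) K := fun c' s =>
    B2_F n (B2_q A (A.x w) c') i₀ j₀ I c₁ c₂ s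
  have hG : ∀ c' s, (aeval B.gp (G c' s) : B.FF) ∈ V := fun c' s =>
    B2_mem B.gp (B2_F_homog n _ (B2_q_homog A (A.x w) c') i₀ j₀ I c₁ c₂ s)
  have hV : Module.Finite K V := Module.Finite.span_of_finite K (Set.finite_range _)
  let T : ((Fin (Δ + 1) × Fin (Δ + 1) × (Fin m → Fin (Δ + 1))) → K) →ₗ[K]
      (Fin (N + 1) → V) :=
    LinearMap.pi fun c' => Fintype.linearCombination K
      (fun s => (⟨aeval B.gp (G c' s), hG c' s⟩ : V))
  have hlt : Module.finrank K (Fin (N + 1) → V) <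
      Module.finrank K ((Fin (Δ + 1) × Fin (Δ + 1) × (Fin m → Fin (Δ + 1))) → K) := by
    rw [Module.finrank_pi_fintype, Module.finrank_fintype_fun_eq_card, Finset.sum_const,
      Finset.card_univ, Fintype.card_fin, smul_eq_mul, Fintype.card_prod, Fintype.card_prod,
      Fintype.card_fun, Fintype.card_fin, Fintype.card_fin]
    exact lt_of_le_of_lt (Nat.mul_le_mul_left _ (hC k)) (B2_count hΔ)
  have hker := LinearMap.ker_ne_bot_of_finrank_lt (f := T) hlt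
  obtain ⟨Φ, hΦ, hΦ0⟩ := (Submodule.ne_bot_iff _).1 hker
  refine ⟨Φ, hΦ0, fun L _ _ b => ?_⟩
  have h0 : ∀ c', ∑ s, algebraMap K L (Φ s) * aeval (B.x b) (G c' s) = 0 := by
    intro c'
    have h1 : aeval B.gp (∑ s, C (Φ s) * G c' s) = 0 := by
      have h2 := congrFun (LinearMap.mem_ker.1 hΦ) c'
      have h3 : (Fintype.linearCombination K
        (fun s => (⟨aeval B.gp (G c' s), hG c' s⟩ : V)) Φ) = 0 := h2
      rw [Fintype.linearCombination_apply] at h3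
      have h4 := congrArg (fun v : V => (v : B.FF)) h3
      simp only [Submodule.coe_sum, Submodule.coe_smul, Submodule.coe_zero] at h4
      rw [map_sum, ← h4]
      refine Finset.sum_congr rfl fun s _ => ?_
      rw [map_mul, aeval_C, Algebra.smul_def]
    have h5 := B2a B _ h1 b
    rw [map_sum] at h5
    rw [← h5]
    refine Finset.sum_congr rfl fun s _ => ?_
    rw [map_mul, aeval_C]
  obtain ⟨γ, hγ, hS⟩ := (AV.Rep.self (hB.inc L b)).spec (A.img_rep (Algebra.ofId K L) w)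
  obtain ⟨c', hc'⟩ := A.exists_x_ne (hB.inc L b - A.img (Algebra.ofId K L) w)
  have h6 : ∀ i, aeval (B.x b) (B2_q A (A.x w) c' i) =
      (γ * A.x (hB.inc L b - A.img (Algebra.ofId K L) w) c') * yw hB w b i := by
    intro i
    rw [B2_q_eval]
    have h7 := hS i c'
    rw [hB.x_inc b] at h7
    have h8 : yw hB w b i = A.x (hB.inc L b + A.img (Algebra.ofId K L) w) i := by
      unfold yw
      rw [add_comm]
    rw [h8]
    refine Eq.trans h7 ?_
    ring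
  have h9 := h0 c'
  have h10 : ∀ s, algebraMap K L (Φ s) * aeval (B.x b) (G c' s) =
      (γ * A.x (hB.inc L b - A.img (Algebra.ofId K L) w) c') ^ (n * (2 * Δ)) *
        (algebraMap K L (Φ s) *
            (fv (fun μ => algebraMap K L (c₁ μ)) (yw hB w b) ^ (s.1 : ℕ) *
              fv (fun μ => algebraMap K L (c₂ μ)) (yw hB w b) ^ (s.2.1 : ℕ) *
                yw hB w b i₀ ^ (n * (2 * Δ - s.1 - s.2.1)) *
                  (∏ k, B.x b (I k) ^ (s.2.2 k : ℕ)) *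
                    B.x b j₀ ^ (m * Δ - ∑ k, (s.2.2 k : ℕ)))) := by
    intro s
    have h11 := B2_F_eval n (B2_q A (A.x w) c') i₀ j₀ I c₁ c₂ s (B.x b) (yw hB w b) _ h6
    show algebraMap K L (Φ s) * aeval (B.x b) (B2_F n (B2_q A (A.x w) c') i₀ j₀ I c₁ c₂ s) = _
    rw [h11]
    ring
  rw [Finset.sum_congr rfl fun s _ => h10 s, ← Finset.mul_sum] at h9
  exact (mul_eq_zero.1 h9).resolve_left (pow_ne_zero _ (mul_ne_zero hγ hc'))

end UVB
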