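import Pool.Agent.Lib.MP_17a322_ntU2.Defs0

/-!
uv2, leaf T1: the translation lemma.
-/

universe u

namespace UVB

open NumberField

/-- THE TRANSLATION LEMMA.  `R` is a finite set of integer vectors with entries between `0` and `H`;  for every `y` at most
`m` elements `r` of `R` are such that `y - r` has the property `p`.  Then `#R * cnt H p ≤ m * (3 H + 1) ^ #ι`.

PROOF.  Let `X` be the finite set of the `a` with `|a i| ≤ H` and `p a` (`{a | ∀ i, |a i| ≤ H}` is finite:
`Set.Finite.pi'` or `Fintype.piFinset fun _ => Finset.Icc (-H) H`; `cnt H p = X.card` for `X` the filter of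
`Fintype.piFinset`, by `Nat.card_eq_fintype_card` or `Nat.subtype_card`).  Map `(r, a) ∈ R ×ˢ X` to `y = a + r`, a vector with
entries between `-H` and `2 H`; there are `(3 H + 1) ^ #ι` such `y` (`Fintype.card_piFinset`, `Int.card_Icc`).  The
fibre over `y` injects by `(r, a) ↦ r` into the set of the `r ∈ R` with `p (y - r)`, so it has at most `m` elements:
`Finset.card_le_mul_card_image_of_maps_to` (`Finset.card_le_mul_card_image`). -/
theorem T1 {ι : Type} [Fintype ι] (H : ℕ) (p : (ι → ℤ) → Prop) (R : Finset (ι → ℤ))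
    (hR : ∀ r ∈ R, ∀ i, 0 ≤ r i ∧ r i ≤ (H : ℤ)) (m : ℕ)
    (hm : ∀ y : ι → ℤ, Nat.card {r : ι → ℤ // r ∈ R ∧ p (y - r)} ≤ m) :
    R.card * cnt H p ≤ m * (3 * H + 1) ^ Fintype.card ι := by
  classical
  have hX : cnt H p = ((Fintype.piFinset fun _ : ι => Finset.Icc (-(H : ℤ)) H).filter p).card := by
    unfold cnt
    refine Nat.subtype_card _ fun a => ?_
    rw [Finset.mem_filter, Fintype.mem_piFinset]
    simp only [Finset.mem_Icc, abs_le]
  obtain ⟨X, hXd⟩ : ∃ X : Finset (ι → ℤ),
      X = (Fintype.piFinset fun _ : ι => Finset.Icc (-(H : ℤ)) H).filter p := ⟨_, rfl⟩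
  rw [← hXd] at hX
  have hXm : ∀ a ∈ X, (∀ i, -(H : ℤ) ≤ a i ∧ a i ≤ H) ∧ p a := by
    intro a ha
    rw [hXd, Finset.mem_filter, Fintype.mem_piFinset] at ha
    exact ⟨fun i => Finset.mem_Icc.1 (ha.1 i), ha.2⟩
  have hY : (Fintype.piFinset fun _ : ι => Finset.Icc (-(H : ℤ)) (2 * H)).card =
      (3 * H + 1) ^ Fintype.card ι := by
    rw [Fintype.card_piFinset, Finset.prod_const, Finset.card_univ, Int.card_Icc]
    congr 1
    omega
  rw [hX, ← hY, ← Finset.card_product]
  refine Finset.card_le_mul_card_image_of_maps_to (f := fun q : (ι → ℤ) × (ι → ℤ) => q.2 + q.1)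
    ?_ m ?_
  · rintro ⟨r, a⟩ hq
    rw [Finset.mem_product] at hq
    rw [Fintype.mem_piFinset]
    intro i
    have h1 := hR r hq.1 i
    have h2 := (hXm a hq.2).1 i
    rw [Finset.mem_Icc, Pi.add_apply]
    constructor
    · linarith
    · linarith
  · intro y _
    refine le_trans ?_ (hm y)
    have h1 : Nat.card {r : ι → ℤ // r ∈ R ∧ p (y - r)} = (R.filter fun r => p (y - r)).card :=
      Nat.subtype_card _ fun r => Finset.mem_filter
    rw [h1]
    refine Finset.card_le_card_of_injOn Prod.fst ?_ ?_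
    · rintro ⟨r, a⟩ hq
      rw [Finset.mem_coe, Finset.mem_filter, Finset.mem_product] at hq
      rw [Finset.mem_coe, Finset.mem_filter]
      refine ⟨hq.1.1, ?_⟩
      have h2 : a = y - r := by
        rw [← hq.2]
        exact (add_sub_cancel_right a r).symm
      have h3 := (hXm a hq.1.2).2
      rw [h2] at h3
      exact h3
    · rintro ⟨r, a⟩ hq ⟨r', a'⟩ hq' h
      rw [Finset.mem_coe, Finset.mem_filter] at hq hq'
      have h2 : r = r' := h
      subst h2
      have h3 : a + r = a' + r := hq.2.trans hq'.2.symm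
      rw [add_right_cancel h3]

end UVB
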