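import Pool.Agent.Lib.MP_17a322_ntU2.T0
import Pool.Agent.Lib.MP_17a322_ntU2.T1

/-!
uv2, leaf B4: counting on curves of bounded degree.
-/

universe u

namespace UVB

open NumberField

/-- A non-zero polynomial of degree at most `Δ` has at most `Δ` zeros. -/
private theorem B4_one {K : Type*} [Field K] [DecidableEq K] (Δ : ℕ) (q : Fin (Δ + 1) → K) (hq : ∃ i, q i ≠ 0)
    (S : Finset K) : (S.filter fun a => ∑ i, q i * a ^ (i : ℕ) = 0).card ≤ Δ := by
  classical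
  set P : Polynomial K := ∑ i : Fin (Δ + 1), Polynomial.monomial (i : ℕ) (q i) with hPdef
  have hdeg : P.natDegree ≤ Δ := by
    refine Polynomial.natDegree_sum_le_of_forall_le _ _ fun i _ => ?_
    exact (Polynomial.natDegree_monomial_le _).trans (Nat.lt_succ_iff.1 i.2)
  have hcoeff : ∀ i : Fin (Δ + 1), P.coeff (i : ℕ) = q i := by
    intro i
    rw [hPdef, Polynomial.finsetSum_coeff, Finset.sum_eq_single i]
    · rw [Polynomial.coeff_monomial, if_pos rfl]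
    · intro j _ hj
      rw [Polynomial.coeff_monomial, if_neg fun h => hj (Fin.ext h)]
    · intro h
      exact absurd (Finset.mem_univ i) h
  have hP : P ≠ 0 := by
    intro h
    obtain ⟨i, hi⟩ := hq
    rw [← hcoeff i, h, Polynomial.coeff_zero] at hi
    exact hi rfl
  refine le_trans (Polynomial.card_le_degree_of_subset_roots (p := P) ?_) hdeg
  intro a ha
  rw [Finset.mem_val, Finset.mem_filter] at ha
  rw [Polynomial.mem_roots hP, Polynomial.IsRoot.def, hPdef, Polynomial.eval_finsetSum]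
  rw [← ha.2]
  exact Finset.sum_congr rfl fun i _ => Polynomial.eval_monomial ..

/-- Zeros of a polynomial in two variables on a grid. -/
private theorem B4_two {K : Type*} [Field K] [DecidableEq K] (Δ M : ℕ) (Q : Fin (Δ + 1) → Fin (Δ + 1) → K)
    (hQ : Q ≠ 0) (S T : Finset K) (hS : S.card ≤ M) (hT : T.card ≤ M) :
    ((S ×ˢ T).filter fun z => ∑ i, ∑ j, Q i j * z.1 ^ (i : ℕ) * z.2 ^ (j : ℕ) = 0).card ≤ 2 * Δ * M := by
  classical
  obtain ⟨i₀, hi₀⟩ := Function.ne_iff.1 hQ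
  obtain ⟨k₀, hk₀⟩ := Function.ne_iff.1 hi₀
  set B : Finset K := T.filter fun b => ∑ j, Q i₀ j * b ^ (j : ℕ) = 0 with hB
  have hBc : B.card ≤ Δ := B4_one Δ (Q i₀) ⟨k₀, hk₀⟩ T
  have hsub : ((S ×ˢ T).filter fun z => ∑ i, ∑ j, Q i j * z.1 ^ (i : ℕ) * z.2 ^ (j : ℕ) = 0) ⊆
      (S ×ˢ B) ∪ T.biUnion (fun b => if ∑ j, Q i₀ j * b ^ (j : ℕ) = 0 then ∅ else
        (S.filter fun a => ∑ i, (∑ j, Q i j * b ^ (j : ℕ)) * a ^ (i : ℕ) = 0) ×ˢ {b}) := by
    rintro ⟨a, b⟩ hz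
    rw [Finset.mem_filter, Finset.mem_product] at hz
    obtain ⟨⟨ha, hb⟩, hz⟩ := hz
    change a ∈ S at ha
    change b ∈ T at hb
    change ∑ i, ∑ j, Q i j * a ^ (i : ℕ) * b ^ (j : ℕ) = 0 at hz
    rw [Finset.mem_union]
    by_cases hb0 : ∑ j, Q i₀ j * b ^ (j : ℕ) = 0
    · exact Or.inl (Finset.mem_product.2 ⟨ha, Finset.mem_filter.2 ⟨hb, hb0⟩⟩)
    · refine Or.inr (Finset.mem_biUnion.2 ⟨b, hb, ?_⟩)
      rw [if_neg hb0, Finset.mem_product]
      refine ⟨Finset.mem_filter.2 ⟨ha, ?_⟩, Finset.mem_singleton_self b⟩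
      rw [← hz]
      refine Finset.sum_congr rfl fun i _ => ?_
      rw [Finset.sum_mul]
      exact Finset.sum_congr rfl fun j _ => by ring
  refine (Finset.card_le_card hsub).trans ((Finset.card_union_le _ _).trans ?_)
  have h1 : (S ×ˢ B).card ≤ M * Δ := by
    rw [Finset.card_product]
    exact Nat.mul_le_mul hS hBc
  have h2 : (T.biUnion (fun b => if ∑ j, Q i₀ j * b ^ (j : ℕ) = 0 then ∅ else
        (S.filter fun a => ∑ i, (∑ j, Q i j * b ^ (j : ℕ)) * a ^ (i : ℕ) = 0) ×ˢ {b})).card ≤ M * Δ := by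
    refine (Finset.card_biUnion_le_card_mul _ _ Δ fun b _ => ?_).trans (Nat.mul_le_mul_right _ hT)
    split_ifs with h
    · exact Nat.zero_le _
    · rw [Finset.card_product, Finset.card_singleton, mul_one]
      exact B4_one Δ (fun i => ∑ j, Q i j * b ^ (j : ℕ)) ⟨i₀, h⟩ S
  calc (S ×ˢ B).card + _ ≤ M * Δ + M * Δ := Nat.add_le_add h1 h2
    _ = 2 * Δ * M := by ring

/-- The translation vectors. -/
private def B4_r {e : ℕ} {ι : Type} [DecidableEq ι] (j₁ j₂ : ι) (k₀ : Fin e) (z : ℕ × ℕ) : ι × Fin e → ℤ :=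
  Pi.single (j₁, k₀) (z.1 : ℤ) + Pi.single (j₂, k₀) (z.2 : ℤ)

private theorem B4_r1 {e : ℕ} {ι : Type} [DecidableEq ι] {j₁ j₂ : ι} (h₁₂ : j₁ ≠ j₂) (k₀ : Fin e) (z : ℕ × ℕ)
    (k : Fin e) : B4_r j₁ j₂ k₀ z (j₁, k) = if k = k₀ then (z.1 : ℤ) else 0 := by
  unfold B4_r
  rw [Pi.add_apply, Pi.single_eq_of_ne (i := (j₂, k₀)) (i' := (j₁, k))
    (fun h => h₁₂ (congrArg Prod.fst h)), add_zero]
  split_ifs with h
  · rw [h, Pi.single_eq_same]
  · exact Pi.single_eq_of_ne (fun h' => h (congrArg Prod.snd h')) _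

private theorem B4_r2 {e : ℕ} {ι : Type} [DecidableEq ι] {j₁ j₂ : ι} (h₁₂ : j₁ ≠ j₂) (k₀ : Fin e) (z : ℕ × ℕ)
    (k : Fin e) : B4_r j₁ j₂ k₀ z (j₂, k) = if k = k₀ then (z.2 : ℤ) else 0 := by
  unfold B4_r
  rw [Pi.add_apply, Pi.single_eq_of_ne (i := (j₁, k₀)) (i' := (j₂, k))
    (fun h => h₁₂ (congrArg Prod.fst h).symm), zero_add]
  split_ifs with h
  · rw [h, Pi.single_eq_same]
  · exact Pi.single_eq_of_ne (fun h' => h (congrArg Prod.snd h')) _

private theorem B4_r3 {e : ℕ} {ι : Type} [DecidableEq ι] {j₁ j₂ : ι} (k₀ : Fin e) (z : ℕ × ℕ)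
    {i : ι} (h₁ : i ≠ j₁) (h₂ : i ≠ j₂) (k : Fin e) : B4_r j₁ j₂ k₀ z (i, k) = 0 := by
  unfold B4_r
  rw [Pi.add_apply, Pi.single_eq_of_ne (i := (j₁, k₀)) (i' := (i, k))
    (fun h => h₁ (congrArg Prod.fst h)), Pi.single_eq_of_ne (i := (j₂, k₀)) (i' := (i, k))
    (fun h => h₂ (congrArg Prod.fst h)), add_zero]

private theorem B4_inj {e : ℕ} {ι : Type} [DecidableEq ι] {j₁ j₂ : ι} (h₁₂ : j₁ ≠ j₂) (k₀ : Fin e) :
    Function.Injective (B4_r j₁ j₂ k₀) := by
  rintro ⟨α, β⟩ ⟨α', β'⟩ h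
  have h1 := congrFun h (j₁, k₀)
  have h2 := congrFun h (j₂, k₀)
  rw [B4_r1 h₁₂, B4_r1 h₁₂, if_pos rfl, if_pos rfl] at h1
  rw [B4_r2 h₁₂, B4_r2 h₁₂, if_pos rfl, if_pos rfl] at h2
  exact Prod.ext (Nat.cast_injective h1) (Nat.cast_injective h2)

/-- The coefficients of a translate. -/
private theorem B4_ck {K : Type u} [Field K] [NumberField K] {e : ℕ} (ω : Module.Basis (Fin e) ℤ (𝓞 K))
    {ι : Type} [DecidableEq ι] {j₁ j₂ : ι} (h₁₂ : j₁ ≠ j₂) (k₀ : Fin e) (z : ℕ × ℕ) (y : ι × Fin e → ℤ) :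
    ck ω (y - B4_r j₁ j₂ k₀ z) =
      Function.update (Function.update (ck ω y) j₁ (ck ω y j₁ - z.1 * algebraMap (𝓞 K) K (ω k₀))) j₂
        (ck ω y j₂ - z.2 * algebraMap (𝓞 K) K (ω k₀)) := by
  have hgen : ∀ (i : ι) (n : ℕ), (∀ k, B4_r j₁ j₂ k₀ z (i, k) = if k = k₀ then (n : ℤ) else 0) →
      ck ω (y - B4_r j₁ j₂ k₀ z) i = ck ω y i - n * algebraMap (𝓞 K) K (ω k₀) := by
    intro i n hn
    unfold ck co
    have h1 : ∑ k, (y - B4_r j₁ j₂ k₀ z) (i, k) • ω k = (∑ k, y (i, k) • ω k) - (n : ℤ) • ω k₀ := by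
      have h2 : ∀ k, (y - B4_r j₁ j₂ k₀ z) (i, k) • ω k =
          y (i, k) • ω k - (if k = k₀ then (n : ℤ) • ω k₀ else 0) := by
        intro k
        rw [Pi.sub_apply, hn k, sub_smul]
        split_ifs with h
        · rw [h]
        · rw [zero_smul]
      rw [Finset.sum_congr rfl fun k _ => h2 k, Finset.sum_sub_distrib, Finset.sum_ite_eq' ,
        if_pos (Finset.mem_univ k₀)]
    rw [h1, map_sub, map_zsmul, zsmul_eq_mul, Int.cast_natCast]
  funext i
  by_cases h2 : i = j₂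
  · subst h2
    rw [Function.update_self]
    exact hgen i z.2 (B4_r2 h₁₂ k₀ z)
  · rw [Function.update_of_ne h2]
    by_cases h1 : i = j₁
    · subst h1
      rw [Function.update_self]
      exact hgen i z.1 (B4_r1 h₁₂ k₀ z)
    · rw [Function.update_of_ne h1]
      have h3 := hgen i 0 (fun k => by rw [B4_r3 k₀ z h1 h2, Nat.cast_zero, ite_self])
      rw [h3, Nat.cast_zero, zero_mul, sub_zero]

/-- COUNTING.  Let `p` be a property of coefficient vectors such that for all `c` the pairs `(a₁, a₂)` for which the vector `c` with the entries at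
`j₁ ≠ j₂` replaced by `a₁`, `a₂` has the property satisfy an equation `Q ≠ 0` of degree at most `Δ` in each variable.  Then the proportion of the
coefficient vectors in the box with the property is at most `C / H`; `C` depends on `Δ`, `#ι`, `e` only.

PROOF.  `e ≥ 1`; let `k₀ : Fin e` and `R` the image of `(α, β) ↦ Pi.single (j₁, k₀) α + Pi.single (j₂, k₀) β`, `0 ≤ α, β ≤ H`,
`#R = (H + 1) ^ 2`.  T1 with `m = 2 Δ (H + 1)`: for `y` given the vector `co ω (y - r)` is `co ω y` with the entries at `j₁`, `j₂` replaced by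
`A₁ - α ω_k₀`, `A₂ - β ω_k₀`, `A_i` the entries of `co ω y`.  Let `Q` belong to `c = ck ω y`.  If `y - r` has the property then
`Q (A₁ - α ω_k₀, A₂ - β ω_k₀) = 0`.  There is `i` such that `Q i` is not zero, so the polynomial `∑_j Q i j T ^ j` has at most `Δ` zeros, and
`β ↦ A₂ - β ω_k₀` is injective (`ω_k₀ ≠ 0` in `K`): for all but at most `Δ` of the `β` the polynomial `∑_i (∑_j Q i j (A₂ - β ω_k₀) ^ j) T ^ i` is not
zero and has at most `Δ` zeros, so at most `Δ` values of `α`.  Number of the pairs: at most `Δ (H + 1) + (H + 1) Δ`.  So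
`(H + 1) ^ 2 cnt ≤ 2 Δ (H + 1) (3 H + 1) ^ (#ι e)`, `cnt ≤ 2 Δ 4 ^ (#ι e) (1 / H) H ^ (#ι e)`. -/
theorem B4 {K : Type u} [Field K] [NumberField K] {e : ℕ} (ω : Module.Basis (Fin e) ℤ (𝓞 K))
    {ι : Type} [Fintype ι] [DecidableEq ι] (Δ : ℕ) (j₁ j₂ : ι) (h₁₂ : j₁ ≠ j₂) (p : (ι → K) → Prop)
    (hp : ∀ c : ι → K, ∃ Q : Fin (Δ + 1) → Fin (Δ + 1) → K, Q ≠ 0 ∧ ∀ a₁ a₂ : K,
      p (Function.update (Function.update c j₁ a₁) j₂ a₂) →
        ∑ i, ∑ j, Q i j * a₁ ^ (i : ℕ) * a₂ ^ (j : ℕ) = 0) (H : ℕ) (hH : 1 ≤ H) :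
    (cnt H (fun a : ι × Fin e → ℤ => p (ck ω a)) : ℝ) ≤
      2 * Δ * 4 ^ (Fintype.card ι * e) * (1 / H) * (H : ℝ) ^ (Fintype.card ι * e) := by
  classical
  have he : ∃ k₀ : Fin e, True := by
    rcases Nat.eq_zero_or_pos e with h0 | h0
    · subst h0
      exfalso
      have h1 : (1 : 𝓞 K) = 0 := by
        rw [← ω.sum_repr (1 : 𝓞 K)]
        exact Fintype.sum_empty _
      exact one_ne_zero h1
    · exact ⟨⟨0, h0⟩, trivial⟩
  obtain ⟨k₀, -⟩ := he
  set w : K := algebraMap (𝓞 K) K (ω k₀) with hw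
  have hw0 : w ≠ 0 := by
    rw [hw, Ne, FaithfulSMul.algebraMap_eq_zero_iff]
    exact ω.ne_zero k₀
  set Z : Finset (ℕ × ℕ) := Finset.range (H + 1) ×ˢ Finset.range (H + 1) with hZ
  have hRc : (Z.image (B4_r j₁ j₂ k₀)).card = (H + 1) * (H + 1) := by
    rw [Finset.card_image_of_injective _ (B4_inj h₁₂ k₀), hZ, Finset.card_product, Finset.card_range]
  have hinj : ∀ A : K, Function.Injective (fun n : ℕ => A - n * w) := by
    intro A n m h
    have h1 : (n : K) * w = m * w := sub_right_injective h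
    exact Nat.cast_injective (mul_right_cancel₀ hw0 h1)
  have key := T1 H (fun a : ι × Fin e → ℤ => p (ck ω a)) (Z.image (B4_r j₁ j₂ k₀)) (by
    intro r hr i
    obtain ⟨z, hz, rfl⟩ := Finset.mem_image.1 hr
    rw [hZ, Finset.mem_product, Finset.mem_range, Finset.mem_range] at hz
    obtain ⟨i, k⟩ := i
    by_cases h1 : i = j₁
    · subst h1
      rw [B4_r1 h₁₂]
      split_ifs
      · omega
      · omega
    · by_cases h2 : i = j₂
      · subst h2
        rw [B4_r2 h₁₂]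
        split_ifs
        · omega
        · omega
      · rw [B4_r3 k₀ z h1 h2]
        omega) (2 * Δ * (H + 1)) (by
    intro y
    obtain ⟨Q, hQ, hQp⟩ := hp (ck ω y)
    set S : Finset K := (Finset.range (H + 1)).image (fun n : ℕ => ck ω y j₁ - n * w) with hS
    set T : Finset K := (Finset.range (H + 1)).image (fun n : ℕ => ck ω y j₂ - n * w) with hT
    have hSc : S.card ≤ H + 1 := Finset.card_image_le.trans_eq (Finset.card_range _)
    have hTc : T.card ≤ H + 1 := Finset.card_image_le.trans_eq (Finset.card_range _)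
    refine le_trans ?_ (B4_two Δ (H + 1) Q hQ S T hSc hTc)
    set W : Finset (K × K) :=
      (S ×ˢ T).filter fun z => ∑ i, ∑ j, Q i j * z.1 ^ (i : ℕ) * z.2 ^ (j : ℕ) = 0 with hW
    have hpre : ∀ r : {r : ι × Fin e → ℤ // r ∈ Z.image (B4_r j₁ j₂ k₀) ∧ p (ck ω (y - r))},
        ∃ z ∈ Z, B4_r j₁ j₂ k₀ z = r.1 := by
      intro r
      exact Finset.mem_image.1 r.2.1
    choose zf hzf hzf' using hpre
    have hmem : ∀ r, ((ck ω y j₁ - (zf r).1 * w, ck ω y j₂ - (zf r).2 * w) : K × K) ∈ W := by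
      intro r
      have hz := hzf r
      rw [hZ, Finset.mem_product] at hz
      rw [hW, Finset.mem_filter, Finset.mem_product]
      refine ⟨⟨Finset.mem_image.2 ⟨_, hz.1, rfl⟩, Finset.mem_image.2 ⟨_, hz.2, rfl⟩⟩, ?_⟩
      refine hQp _ _ ?_
      have h3 := r.2.2
      rw [← hzf' r, B4_ck ω h₁₂] at h3
      exact h3
    rw [← Fintype.card_coe W, ← Nat.card_eq_fintype_card (α := W)]
    have : Finite W := Finset.finite_toSet W
    refine Nat.card_le_card_of_injective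
      (fun r => (⟨(ck ω y j₁ - (zf r).1 * w, ck ω y j₂ - (zf r).2 * w), hmem r⟩ : W)) ?_
    intro r r' hrr
    have h4 := congrArg Subtype.val hrr
    have h5 : zf r = zf r' :=
      Prod.ext (hinj _ (congrArg Prod.fst h4)) (hinj _ (congrArg Prod.snd h4))
    refine Subtype.ext ?_
    rw [← hzf' r, ← hzf' r', h5])
  rw [hRc, Fintype.card_prod, Fintype.card_fin] at key
  set E := Fintype.card ι * e with hE
  set c := cnt H (fun a : ι × Fin e → ℤ => p (ck ω a)) with hc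
  have hle : (3 * H + 1) ^ E ≤ (4 * H) ^ E := Nat.pow_le_pow_left (by omega) E
  have k1 : (H + 1) * ((H + 1) * c) ≤ (H + 1) * (2 * Δ * (4 * H) ^ E) := by
    calc (H + 1) * ((H + 1) * c) = (H + 1) * (H + 1) * c := by ring
      _ ≤ 2 * Δ * (H + 1) * (3 * H + 1) ^ E := key
      _ ≤ 2 * Δ * (H + 1) * (4 * H) ^ E := Nat.mul_le_mul_left _ hle
      _ = (H + 1) * (2 * Δ * (4 * H) ^ E) := by ring
  have k2 : (H + 1) * c ≤ 2 * Δ * (4 * H) ^ E := Nat.le_of_mul_le_mul_left k1 (Nat.succ_pos H)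
  have k3 : H * c ≤ 2 * Δ * (4 * H) ^ E := le_trans (Nat.mul_le_mul_right _ (Nat.le_succ H)) k2
  have k4 : (H : ℝ) * c ≤ 2 * Δ * (4 * H) ^ E := by exact_mod_cast k3
  have hH0 : (0 : ℝ) < H := by exact_mod_cast hH
  have k5 : (c : ℝ) ≤ (2 * Δ * (4 * H) ^ E) / H := by
    rw [le_div_iff₀ hH0, mul_comm]
    exact k4
  refine k5.trans_eq ?_
  rw [mul_pow]
  ring

end UVB
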