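import Pool.Agent.Lib.MP_17a322_ntU2.Defs0
import Pool.Agent.Lib.MP_17a322_nt.VA.Z7

/-!
uv2, leaf B5a: independent quotients of coordinates.
-/

universe u

namespace UVB

open Pool.Agent.Lib.MP_17a322_nt.VA

/-- If the transcendence degree of the point `y` is at least `m` then `m` quotients of coordinates with the same denominator are algebraically
independent.  PROOF.  Choose `j₀` with `y j₀ ≠ 0`.  The field generated by the quotients `y p / y q` is generated by the `y p / y j₀`
(`y p / y q = (y p / y j₀) / (y q / y j₀)`).  The range of `t p = y p / y j₀` contains a transcendence basis `s` of it over `K`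
(`exists_isTranscendenceBasis_subset` or, in this library, `exists_basis_subset` used in VA/Z3, `Z_exists_basis` in VA/Z5), and
`#s = tdeg K y ≥ m`, so there are `m` different elements of `s`; choose indices for them. -/
theorem B5a {K L : Type u} [Field K] [Field L] [Algebra K L] {N m : ℕ} (y : Fin (N + 1) → L)
    (hy : y ≠ 0) (h : (m : Cardinal.{u}) ≤ tdeg K y) :
    ∃ (j₀ : Fin (N + 1)) (I : Fin m → Fin (N + 1)), y j₀ ≠ 0 ∧
      AlgebraicIndependent K (fun k => y (I k) / y j₀) := by
  obtain ⟨j₀, hj₀⟩ := Function.ne_iff.1 hy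
  have hj : y j₀ ≠ 0 := hj₀
  obtain ⟨w, hw⟩ : ∃ w : Fin (N + 1) → L, w = fun i => y i / y j₀ := ⟨_, rfl⟩
  obtain ⟨T, hT, hT'⟩ := Pool.Agent.Lib.MP_17a322_nt.VN.exists_basis_subset (K := K) w
  have hr : Set.range (fun t : T => w t) = w '' T := (Set.image_eq_range _ _).symm
  have h1 : ∀ p, IsAlgebraic (IntermediateField.adjoin K (Set.range fun t : T => w t)) (rt y p) := by
    intro p
    have e1 : rt y p = w p.1 * (w p.2)⁻¹ := by
      rw [hw]
      show y p.1 / y p.2 = y p.1 / y j₀ * (y p.2 / y j₀)⁻¹
      rw [← div_eq_mul_inv, div_div_div_cancel_right₀ hj]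
    rw [e1, hr]
    exact (hT' p.1).mul (hT' p.2).inv
  have h2 := h.trans (Z_tdeg_le_card y (fun t : T => w t) h1)
  have h3 : m ≤ Nat.card T := by exact_mod_cast h2
  have h4 : Fintype T := Fintype.ofFinite T
  have h5 : Fintype.card (Fin m) ≤ Fintype.card T := by
    rw [Fintype.card_fin, ← Nat.card_eq_fintype_card]
    exact h3
  obtain ⟨φ⟩ := Function.Embedding.nonempty_of_card_le h5
  refine ⟨j₀, fun k => (φ k : Fin (N + 1)), hj, ?_⟩
  have h6 := hT.comp φ φ.injective
  rw [hw] at h6
  exact h6

end UVB
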