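import Mathlib

/-!
Almost all members of the families: boxes of coefficients, forms, finite parts of heights.
-/

universe u

namespace UVB

open NumberField

/-- The number of the integer vectors with entries at most `H` in absolute value and with the property
`p`. -/
noncomputable def cnt (H : ℕ) {ι : Type} (p : (ι → ℤ) → Prop) : ℕ :=
  Nat.card {a : ι → ℤ // (∀ i, |a i| ≤ (H : ℤ)) ∧ p a}

/-- The exponents of the monomials of degree `n` in `N + 1` variables. -/
abbrev Mo (N n : ℕ) : Type := {μ : Fin (N + 1) → Fin (n + 1) // ∑ i, (μ i : ℕ) = n}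

/-- The value at `x` of the form with the coefficients `c`. -/
def fv {R : Type*} [CommRing R] {N n : ℕ} (c : Mo N n → R) (x : Fin (N + 1) → R) : R :=
  ∑ μ : Mo N n, c μ * ∏ i, x i ^ (μ.1 i : ℕ)

/-- The indices of the coefficients of `r` forms of degree `d` and of one form of degree `D`. -/
abbrev Ix (N r d D : ℕ) : Type := Fin r × Mo N d ⊕ Mo N D

/-- The value at `x` of the `j`-th form of degree `d`. -/
def gv {R : Type*} [CommRing R] {N r d D : ℕ} (c : Ix N r d D → R) (x : Fin (N + 1) → R)
    (j : Fin r) : R := fv (fun μ => c (Sum.inl (j, μ))) x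

/-- The value at `x` of the form of degree `D`. -/
def hv {R : Type*} [CommRing R] {N r d D : ℕ} (c : Ix N r d D → R) (x : Fin (N + 1) → R) : R :=
  fv (fun μ => c (Sum.inr μ)) x

/-- The elements of the ring of integers with the coordinates `a` in the basis `ω`. -/
noncomputable def co {K : Type u} [Field K] [NumberField K] {e : ℕ} (ω : Module.Basis (Fin e) ℤ (𝓞 K)) {ι : Type}
    (a : ι × Fin e → ℤ) (i : ι) : 𝓞 K := ∑ k, a (i, k) • ω k

/-- The same in the field. -/
noncomputable def ck {K : Type u} [Field K] [NumberField K] {e : ℕ} (ω : Module.Basis (Fin e) ℤ (𝓞 K)) {ι : Type}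
    (a : ι × Fin e → ℤ) (i : ι) : K := algebraMap (𝓞 K) K (co ω a i)

/-- The finite part of the height of a vector. -/
noncomputable def FP {K : Type u} [Field K] [NumberField K] {ι : Type} (y : ι → K) : ℝ :=
  Real.log (∏ᶠ v : FinitePlace K, ⨆ i, v (y i))

/-- The local height of the point `x` with respect to the hypersurface of degree `D`. -/
noncomputable def lam {K : Type u} [Field K] {N r d D : ℕ} (c : Ix N r d D → K)
    (x : Fin (N + 1) → K) (v : AbsoluteValue K ℝ) : ℝ :=
  D * Real.log (⨆ i, v (x i)) + Real.log (⨆ i, v (c i)) - Real.log (v (hv c x))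

/-- The point `x` satisfies Vojta's inequality, with the error term `W`, for the forms with the
coefficients `c`. -/
def Ok {K : Type u} [Field K] [NumberField K] {N r d D : ℕ} (S : Finset (FinitePlace K)) (W : ℝ)
    (c : Ix N r d D → K) (x : Fin (N + 1) → K) : Prop :=
  hv c x ≠ 0 ∧ (∃ j, gv c x j ≠ 0) ∧
    (d * Height.logHeight x + Height.logHeight c - Height.logHeight (gv c x)) +
      ((∑ v : InfinitePlace K, (v.mult : ℝ) * lam c x v.val) + ∑ v ∈ S, lam c x v.val) ≤ W

end UVB
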