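import Pool.Agent.Lib.MP_17a322_ntU2.Defs0
import Pool.Agent.Lib.MP_17a322_nt.FU.Defs

/-!
Almost all members of the families: translates of abelian subvarieties.
-/

universe u

namespace UVB

open NumberField
open Pool.Agent.Lib.MP_17a322_nt.VA

/-- The exponent of the monomial `X i ^ n`. -/
def mo {N : ℕ} (n : ℕ) (i : Fin (N + 1)) : Mo N n :=
  ⟨Pi.single i (Fin.last n), by
    rw [Finset.sum_eq_single i]
    · rw [Pi.single_eq_same, Fin.val_last]
    · intro j _ hj
      rw [Pi.single_eq_of_ne hj]
      rfl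
    · intro h
      exact absurd (Finset.mem_univ i) h⟩

section

variable {K : Type u} [Field K] {N : ℕ} {A B : AV K N}

/-- The coordinates of the point `w + b`. -/
noncomputable def yw (hB : IsSubAV B A) (w : A.Pts K) {L : Type u} [Field L] [Algebra K L]
    (b : B.Pts L) : Fin (N + 1) → L := A.x (A.img (Algebra.ofId K L) w + hB.inc L b)

/-- The forms with the coefficients `c` vanish at a point of `w + B` over an extension field whose
transcendence degree is at least the dimension of `B` minus one. -/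
def BadW (hB : IsSubAV B A) (w : A.Pts K) {r d D : ℕ} (c : Ix N r d D → K) : Prop :=
  ∃ (L : Type u) (_ : Field L) (_ : Algebra K L) (b : B.Pts L),
    (∀ j, gv (fun i => algebraMap K L (c i)) (yw hB w b) j = 0) ∧
    ∀ (L' : Type u) [Field L'] [Algebra K L'] (q : B.Pts L'),
      tdeg K (B.x q) ≤ tdeg K (B.x b) + 1

/-- There is a point `b` of `B` over an extension field with `(w + b)_{i₀} ≠ 0`, `b_{j₀} ≠ 0`, algebraically independent
quotients `b_{I k} / b_{j₀}`, at which both forms with the coefficients `c₁`, `c₂` vanish in `w + b`. -/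
def BadAt (hB : IsSubAV B A) (w : A.Pts K) {n m : ℕ} (i₀ j₀ : Fin (N + 1)) (I : Fin m → Fin (N + 1))
    (c₁ c₂ : Mo N n → K) : Prop :=
  ∃ (L : Type u) (_ : Field L) (_ : Algebra K L) (b : B.Pts L),
    yw hB w b i₀ ≠ 0 ∧ B.x b j₀ ≠ 0 ∧
      AlgebraicIndependent K (fun k => B.x b (I k) / B.x b j₀) ∧
        fv (fun μ => algebraMap K L (c₁ μ)) (yw hB w b) = 0 ∧
          fv (fun μ => algebraMap K L (c₂ μ)) (yw hB w b) = 0

end

end UVB
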