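import Pool.Agent.Lib.MP_17a322_ntU2.Defs0

/-!
uv2, leaf G3a: the finite part of the height.
-/

universe u

namespace UVB

open NumberField

/-- The content and the finite part of the height.  PROOF.  Mathlib `NumberField.absNorm_mul_finprod_finitePlace_eq_one` (in
Mathlib/NumberTheory/Height/NumberField.lean): `absNorm (span (range y)) * ∏ᶠ v, ⨆ i, v (y i) = 1`; take logarithms. -/
theorem FP_eq {K : Type u} [Field K] [NumberField K] {ι : Type} [Finite ι] (y : ι → 𝓞 K)
    (hy : y ≠ 0) : FP (fun i => (y i : K)) = - Real.log (Ideal.absNorm (Ideal.span (Set.range y))) := by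
  have h : ((Ideal.absNorm (Ideal.span (Set.range y)) : ℕ) : ℝ) *
      ∏ᶠ v : FinitePlace K, ⨆ i, v (y i : K) = 1 := absNorm_mul_finprod_finitePlace_eq_one hy
  have h0 : ((Ideal.absNorm (Ideal.span (Set.range y)) : ℕ) : ℝ) ≠ 0 := left_ne_zero_of_mul_eq_one h
  have h1 : ∏ᶠ v : FinitePlace K, ⨆ i, v (y i : K) =
      ((Ideal.absNorm (Ideal.span (Set.range y)) : ℕ) : ℝ)⁻¹ := (inv_eq_of_mul_eq_one_right h).symm
  show Real.log (∏ᶠ v : FinitePlace K, ⨆ i, v (y i : K)) = _
  rw [h1, Real.log_inv]

/-- The logarithmic height of a vector of integers.  PROOF.  `Height.logHeight` is the logarithm of `Height.mulHeight`,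
`NumberField.mulHeight_eq` gives the product over the infinite places and the finprod over the finite places; `FP` is the
logarithm of the second factor; `Real.log_prod`, `Real.log_pow`. -/
theorem logHeight_eq {K : Type u} [Field K] [NumberField K] {ι : Type} [Finite ι] (y : ι → K)
    (hy : y ≠ 0) : Height.logHeight y =
      ∑ v : InfinitePlace K, (v.mult : ℝ) * Real.log (⨆ i, v (y i)) + FP y := by
  have h : Height.mulHeight y = (∏ v : InfinitePlace K, (⨆ i, v (y i)) ^ v.mult) *
      ∏ᶠ v : FinitePlace K, ⨆ i, v (y i) := mulHeight_eq hy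
  have h0 : Height.mulHeight y ≠ 0 := by
    have := Height.one_le_mulHeight y
    linarith
  rw [h] at h0
  have h1 := (mul_ne_zero_iff.1 h0).1
  have h2 := (mul_ne_zero_iff.1 h0).2
  have h3 := Finset.prod_ne_zero_iff.1 h1
  rw [Height.logHeight_eq_log_mulHeight, h, Real.log_mul h1 h2, Real.log_prod h3]
  unfold FP
  congr 1
  exact Finset.sum_congr rfl fun v _ => Real.log_pow _ _

end UVB
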