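import Mathlib

/-!
uv2, leaf G5a: a sum over ideals.
-/

universe u

namespace UVB

open NumberField

/-- the ideals of bounded norm are finite in number -/
private theorem G5a_fin (K : Type u) [Field K] [NumberField K] (s : ℝ) :
    {I : Ideal (𝓞 K) | (Ideal.absNorm I : ℝ) ≤ s}.Finite := by
  have h := Ideal.finite_setOfPred_absNorm_le (S := 𝓞 K) ⌊s⌋₊
  exact h.subset (fun I hI => Nat.le_floor hI)

/-- a monotone function which is asymptotic to a multiple of `s` is `O(s)` -/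
private theorem G5a_mono (f : ℝ → ℝ) (hf : Monotone f) (hf0 : ∀ s, 0 ≤ f s) (L : ℝ)
    (h : Filter.Tendsto (fun s : ℝ => f s / s) Filter.atTop (nhds L)) :
    ∃ C : ℝ, 0 ≤ C ∧ ∀ s : ℝ, 1 ≤ s → f s ≤ C * s := by
  have h1 := h.eventually (eventually_lt_nhds (lt_add_one L))
  obtain ⟨s0, hs0⟩ := Filter.eventually_atTop.1 h1
  refine ⟨|L + 1| + f (max s0 1), add_nonneg (abs_nonneg _) (hf0 _), fun s hs => ?_⟩
  have hs1 : (0 : ℝ) < s := by linarith
  rcases le_total s0 s with h2 | h2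
  · have h3 := hs0 s h2
    rw [div_lt_iff₀ hs1] at h3
    have h4 : (L + 1) * s ≤ |L + 1| * s := mul_le_mul_of_nonneg_right (le_abs_self _) hs1.le
    have h5 : 0 ≤ f (max s0 1) * s := mul_nonneg (hf0 _) hs1.le
    rw [add_mul]
    linarith
  · have h3 : f s ≤ f (max s0 1) := hf (le_max_of_le_left h2)
    have h4 : f (max s0 1) * 1 ≤ f (max s0 1) * s := mul_le_mul_of_nonneg_left hs (hf0 _)
    have h5 : 0 ≤ |L + 1| * s := mul_nonneg (abs_nonneg _) hs1.le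
    rw [add_mul]
    linarith

/-- the number of the ideals of norm at most `s` is `O(s)` -/
private theorem G5a_count (K : Type u) [Field K] [NumberField K] : ∃ C : ℝ, 0 ≤ C ∧ ∀ s : ℝ, 1 ≤ s →
    (Nat.card {I : Ideal (𝓞 K) // (Ideal.absNorm I : ℝ) ≤ s} : ℝ) ≤ C * s := by
  refine G5a_mono (fun s => (Nat.card {I : Ideal (𝓞 K) // (Ideal.absNorm I : ℝ) ≤ s} : ℝ)) ?_
    (fun s => Nat.cast_nonneg _) _ (NumberField.Ideal.tendsto_norm_le_div_atTop K)
  intro a b hab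
  have := (G5a_fin K b).to_subtype
  exact Nat.cast_le.2 (Nat.card_mono (G5a_fin K b) fun I hI => le_trans hI hab)

/-- one ideal: the inverse square of the norm is at most a dyadic sum -/
private theorem G5a_one (G n : ℝ) (hG : 1 ≤ G) (hn : G ≤ n) (J : ℕ) (hJ : n < 2 ^ J * G) :
    1 / n ^ 2 ≤ ∑ j ∈ Finset.range J, if n ≤ 2 ^ (j + 1) * G then 1 / (4 ^ j * G ^ 2) else 0 := by
  induction J with
  | zero =>
    exfalso
    rw [pow_zero, one_mul] at hJ
    linarith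
  | succ J ih =>
    have hG0 : 0 < G := by linarith
    have h0 : ∀ j ∈ Finset.range J, (0 : ℝ) ≤ if n ≤ 2 ^ (j + 1) * G then 1 / (4 ^ j * G ^ 2) else 0 := by
      intro j _
      split_ifs
      · positivity
      · exact le_rfl
    rw [Finset.sum_range_succ]
    rcases lt_or_ge n (2 ^ J * G) with h | h
    · have h1 := ih h
      have h2 : (0 : ℝ) ≤ if n ≤ 2 ^ (J + 1) * G then 1 / (4 ^ J * G ^ 2) else 0 := by
        split_ifs
        · positivity
        · exact le_rfl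
      linarith
    · rw [if_pos hJ.le]
      have h1 : 1 / n ^ 2 ≤ 1 / (4 ^ J * G ^ 2) := by
        apply one_div_le_one_div_of_le (by positivity)
        calc (4 : ℝ) ^ J * G ^ 2 = (2 ^ J * G) ^ 2 := by
              rw [mul_pow, ← pow_mul, mul_comm J 2, pow_mul]
              norm_num
          _ ≤ n ^ 2 := pow_le_pow_left₀ (by positivity) h 2
      have h2 := Finset.sum_nonneg h0
      linarith

/-- PROOF.  Mathlib `NumberField.Ideal.tendsto_norm_le_div_atTop` (Mathlib/NumberTheory/NumberField/Ideal/Asymptotics.lean): the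
number of the ideals `𝔞` with `N 𝔞 ≤ s` is `κ s + o(s)`, so it is at most `C₀ s` for `s ≥ 1`.  Dyadic blocks: for `j ≥ 0` the
elements of `s` with `2 ^ j G ≤ N 𝔞 < 2 ^ (j + 1) G` are at most `C₀ 2 ^ (j + 1) G`, and each contributes at most `1 / (4 ^ j G ^ 2)`; the sum is
at most `∑ j, 2 C₀ / (2 ^ j G) = 4 C₀ / G` (the finite set `s` meets finitely many blocks, `Finset.sum_fiberwise` or
`Finset.sum_le_sum_of_...` with the block number `j = ⌊logb 2 (N 𝔞 / G)⌋₊`). -/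
theorem G5a (K : Type u) [Field K] [NumberField K] : ∃ C : ℝ, 0 ≤ C ∧ ∀ G : ℝ, 1 ≤ G →
    ∀ s : Finset (Ideal (𝓞 K)), (∀ 𝔞 ∈ s, G ≤ Ideal.absNorm 𝔞) →
      ∑ 𝔞 ∈ s, 1 / (Ideal.absNorm 𝔞 : ℝ) ^ 2 ≤ C / G := by
  classical
  obtain ⟨C, hC, hcount⟩ := G5a_count K
  refine ⟨4 * C, by positivity, fun G hG s hs => ?_⟩
  have hG0 : 0 < G := by linarith
  obtain ⟨J, hJ⟩ : ∃ J : ℕ, ∀ 𝔞 ∈ s, (Ideal.absNorm 𝔞 : ℝ) < 2 ^ J * G := by
    refine ⟨∑ 𝔞 ∈ s, Ideal.absNorm 𝔞, fun 𝔞 h𝔞 => ?_⟩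
    have h1 : Ideal.absNorm 𝔞 ≤ ∑ 𝔞 ∈ s, Ideal.absNorm 𝔞 :=
      Finset.single_le_sum (f := fun 𝔞 => Ideal.absNorm 𝔞) (fun _ _ => Nat.zero_le _) h𝔞
    have h2 : Ideal.absNorm 𝔞 < 2 ^ (∑ 𝔞 ∈ s, Ideal.absNorm 𝔞) := lt_of_le_of_lt h1 Nat.lt_two_pow_self
    have h3 : (Ideal.absNorm 𝔞 : ℝ) < 2 ^ (∑ 𝔞 ∈ s, Ideal.absNorm 𝔞) := by exact_mod_cast h2
    have h4 : (2 : ℝ) ^ (∑ 𝔞 ∈ s, Ideal.absNorm 𝔞) * 1 ≤ 2 ^ (∑ 𝔞 ∈ s, Ideal.absNorm 𝔞) * G :=
      mul_le_mul_of_nonneg_left hG (by positivity)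
    linarith
  calc ∑ 𝔞 ∈ s, 1 / (Ideal.absNorm 𝔞 : ℝ) ^ 2
      ≤ ∑ 𝔞 ∈ s, ∑ j ∈ Finset.range J,
          if (Ideal.absNorm 𝔞 : ℝ) ≤ 2 ^ (j + 1) * G then 1 / (4 ^ j * G ^ 2) else 0 :=
        Finset.sum_le_sum fun 𝔞 h𝔞 => G5a_one G _ hG (hs 𝔞 h𝔞) J (hJ 𝔞 h𝔞)
    _ = ∑ j ∈ Finset.range J, ∑ 𝔞 ∈ s,
          if (Ideal.absNorm 𝔞 : ℝ) ≤ 2 ^ (j + 1) * G then 1 / (4 ^ j * G ^ 2) else 0 := Finset.sum_comm
    _ ≤ ∑ j ∈ Finset.range J, (2 * C / G) * (1 / 2) ^ j := by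
        refine Finset.sum_le_sum fun j _ => ?_
        rw [← Finset.sum_filter, Finset.sum_const, nsmul_eq_mul]
        have h1 : ((s.filter fun 𝔞 => (Ideal.absNorm 𝔞 : ℝ) ≤ 2 ^ (j + 1) * G).card : ℝ) ≤
            C * (2 ^ (j + 1) * G) := by
          have h2 : (1 : ℝ) ≤ 2 ^ (j + 1) * G := by
            have h3 : (1 : ℝ) ≤ 2 ^ (j + 1) := one_le_pow₀ (by norm_num)
            nlinarith
          refine le_trans ?_ (hcount _ h2)
          have hfin := G5a_fin K (2 ^ (j + 1) * G)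
          have h3 : (s.filter fun 𝔞 => (Ideal.absNorm 𝔞 : ℝ) ≤ 2 ^ (j + 1) * G) ⊆ hfin.toFinset := by
            intro I hI
            rw [Set.Finite.mem_toFinset]
            exact (Finset.mem_filter.1 hI).2
          have h4 := Finset.card_le_card h3
          have h5 : hfin.toFinset.card = Nat.card {I : Ideal (𝓞 K) // (Ideal.absNorm I : ℝ) ≤ 2 ^ (j + 1) * G} :=
            (Nat.card_eq_card_finite_toFinset hfin).symm
          rw [← h5]
          exact_mod_cast h4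
        calc ((s.filter fun 𝔞 => (Ideal.absNorm 𝔞 : ℝ) ≤ 2 ^ (j + 1) * G).card : ℝ) * (1 / (4 ^ j * G ^ 2))
            ≤ C * (2 ^ (j + 1) * G) * (1 / (4 ^ j * G ^ 2)) := mul_le_mul_of_nonneg_right h1 (by positivity)
          _ = (2 * C / G) * (1 / 2) ^ j := by
              have h6 : (4 : ℝ) ^ j = 2 ^ j * 2 ^ j := by
                rw [← mul_pow]
                norm_num
              rw [h6, pow_succ, one_div_pow]
              field_simp
    _ = (2 * C / G) * ∑ j ∈ Finset.range J, (1 / 2 : ℝ) ^ j := by rw [Finset.mul_sum]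
    _ ≤ (2 * C / G) * 2 := by
        refine mul_le_mul_of_nonneg_left ?_ (by positivity)
        have h7 : ∀ J : ℕ, ∑ j ∈ Finset.range J, (1 / 2 : ℝ) ^ j ≤ 2 - 2 * (1 / 2) ^ J := by
          intro J
          induction J with
          | zero => norm_num
          | succ J ih =>
            rw [Finset.sum_range_succ, pow_succ]
            have h8 : (0 : ℝ) < (1 / 2) ^ J := by positivity
            linarith
        have h9 : (0 : ℝ) < (1 / 2) ^ J := by positivity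
        linarith [h7 J]
    _ = 4 * C / G := by ring

end UVB
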