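import Mathlib

/-!
uv2, leaf G5b: divisors of an ideal.
-/

universe u

namespace UVB

open NumberField

/-- PROOF.  Let `𝔞` be a divisor of `𝔟` with `G ≤ N 𝔞` and `N 𝔞` minimal (`𝔟` is one; `Nat.find` or `WellFounded.min`).
`G > 1` so `𝔞 ≠ ⊤`, `𝔞 ≠ ⊥`; let `𝔭` be a prime ideal dividing `𝔞` (`Ideal.exists_le_maximal`, `Ideal.dvd_iff_le`), `𝔞 = 𝔭 𝔠`.  `𝔠` divides `𝔟` and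
`N 𝔠 < N 𝔞` (`N 𝔭 ≥ 2`), so `N 𝔠 < G` by minimality.  If `N 𝔭 ≤ G` then `N 𝔞 = N 𝔭 N 𝔠 ≤ G ^ 2`; otherwise `𝔭` is the prime of
the second case. -/
theorem G5b {K : Type u} [Field K] [NumberField K] (𝔟 : Ideal (𝓞 K)) (h𝔟 : 𝔟 ≠ ⊥) (G : ℝ)
    (hG : 1 < G) (h : G ≤ Ideal.absNorm 𝔟) :
    (∃ 𝔞 : Ideal (𝓞 K), 𝔞 ∣ 𝔟 ∧ G ≤ Ideal.absNorm 𝔞 ∧ (Ideal.absNorm 𝔞 : ℝ) ≤ G ^ 2) ∨
      ∃ 𝔭 : Ideal (𝓞 K), 𝔭.IsPrime ∧ 𝔭 ∣ 𝔟 ∧ G < Ideal.absNorm 𝔭 := by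
  classical
  have hex : ∃ n : ℕ, ∃ 𝔞 : Ideal (𝓞 K), 𝔞 ∣ 𝔟 ∧ Ideal.absNorm 𝔞 = n ∧ G ≤ (n : ℝ) :=
    ⟨Ideal.absNorm 𝔟, 𝔟, dvd_rfl, rfl, h⟩
  obtain ⟨𝔞, h𝔞𝔟, h𝔞n, hGn⟩ := Nat.find_spec hex
  have hmin : ∀ 𝔠 : Ideal (𝓞 K), 𝔠 ∣ 𝔟 → Ideal.absNorm 𝔠 < Ideal.absNorm 𝔞 →
      (Ideal.absNorm 𝔠 : ℝ) < G := by
    intro 𝔠 h𝔠 hlt
    by_contra hcon
    have hcon' : G ≤ (Ideal.absNorm 𝔠 : ℝ) := not_lt.mp hcon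
    have hm := Nat.find_min hex (m := Ideal.absNorm 𝔠) (by rw [← h𝔞n]; exact hlt)
    exact hm ⟨𝔠, h𝔠, rfl, hcon'⟩
  rw [← h𝔞n] at hGn
  have h𝔞top : 𝔞 ≠ ⊤ := by
    intro h0
    rw [h0, Ideal.absNorm_top] at hGn
    push_cast at hGn
    linarith
  have h𝔞0 : Ideal.absNorm 𝔞 ≠ 0 := by
    intro h0
    rw [h0] at hGn
    push_cast at hGn
    linarith
  obtain ⟨𝔭, h𝔭max, h𝔭le⟩ := Ideal.exists_le_maximal 𝔞 h𝔞top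
  have h𝔭dvd : 𝔭 ∣ 𝔞 := Ideal.dvd_iff_le.mpr h𝔭le
  obtain ⟨𝔠, h𝔠⟩ := id h𝔭dvd
  have hN : Ideal.absNorm 𝔞 = Ideal.absNorm 𝔭 * Ideal.absNorm 𝔠 := by rw [h𝔠, map_mul]
  by_cases hp : G < Ideal.absNorm 𝔭
  · exact Or.inr ⟨𝔭, h𝔭max.isPrime, h𝔭dvd.trans h𝔞𝔟, hp⟩
  · left
    refine ⟨𝔞, h𝔞𝔟, hGn, ?_⟩
    have hp' : (Ideal.absNorm 𝔭 : ℝ) ≤ G := not_lt.mp hp
    have h𝔠𝔟 : 𝔠 ∣ 𝔟 := (Dvd.intro_left 𝔭 h𝔠.symm).trans h𝔞𝔟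
    have hp1 : Ideal.absNorm 𝔭 ≠ 1 := by
      intro h1
      exact h𝔭max.ne_top (Ideal.absNorm_eq_one_iff.mp h1)
    have hp0 : Ideal.absNorm 𝔭 ≠ 0 := by
      intro h1
      rw [h1, zero_mul] at hN
      exact h𝔞0 hN
    have hc0 : Ideal.absNorm 𝔠 ≠ 0 := by
      intro h1
      rw [h1, mul_zero] at hN
      exact h𝔞0 hN
    have hlt : Ideal.absNorm 𝔠 < Ideal.absNorm 𝔞 := by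
      have h2 : 2 ≤ Ideal.absNorm 𝔭 := by omega
      have h3 : 0 < Ideal.absNorm 𝔠 := Nat.pos_of_ne_zero hc0
      rw [hN]
      nlinarith
    have hc := hmin 𝔠 h𝔠𝔟 hlt
    rw [hN]
    push_cast
    have hc' : (0 : ℝ) ≤ (Ideal.absNorm 𝔠 : ℝ) := Nat.cast_nonneg _
    have hG0 : (0 : ℝ) ≤ G := by linarith
    calc (Ideal.absNorm 𝔭 : ℝ) * (Ideal.absNorm 𝔠 : ℝ) ≤ G * G :=
          mul_le_mul hp' hc.le hc' hG0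
      _ = G ^ 2 := by ring

end UVB
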