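import Mathlib

/-!
uv2, leaf P1: the number of points of bounded height in a finitely generated group.
-/

universe u

namespace UVB


private theorem P1_rep {G : Type u} [AddCommGroup G] (hG : (⊤ : AddSubgroup G).FG) :
    ∃ R : Finset G, ∀ P, ∃ γ ∈ R, ∃ Q, P = γ + (Q + Q) := by
  classical
  have hfg : AddGroup.FG G := ⟨hG⟩
  obtain ⟨H, hH⟩ : ∃ H : AddSubgroup G, H = (zsmulAddGroupHom 2 : G →+ G).range := ⟨_, rfl⟩
  have hfin : Finite (G ⧸ H) := by
    refine AddCommGroup.finite_of_fg_torsion _ fun x => ?_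
    induction x using QuotientAddGroup.induction_on with
    | H g =>
      rw [isOfFinAddOrder_iff_nsmul_eq_zero]
      refine ⟨2, by norm_num, ?_⟩
      rw [← QuotientAddGroup.mk_nsmul, QuotientAddGroup.eq_zero_iff, hH]
      exact ⟨g, by rw [zsmulAddGroupHom_apply, two_zsmul, two_nsmul]⟩
  have : Fintype (G ⧸ H) := Fintype.ofFinite _
  refine ⟨Finset.univ.image fun x : G ⧸ H => x.out, fun P => ?_⟩
  obtain ⟨⟨y, hy⟩, hPy⟩ := QuotientAddGroup.mk_out_eq_add H P
  rw [hH] at hy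
  obtain ⟨Q, hQ⟩ := hy
  refine ⟨((P : G ⧸ H)).out, Finset.mem_image_of_mem _ (Finset.mem_univ _), -Q, ?_⟩
  have h1 : y = Q + Q := by
    rw [← hQ]
    simp [two_zsmul]
  have h2 : (P : G ⧸ H).out = P + y := hPy
  rw [h2, h1]
  abel

/-- Let `h ≥ 0` be a function on a finitely generated commutative group with `|h (P + Q) + h (P - Q) - 2 h P - 2 h Q| ≤ C` and
finitely many points with `h ≤ T` for all `T`.  Then the number of these points grows at most polynomially in `T`.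

PROOF.  `C ≥ 0`.  `h (P - Q) ≤ 2 h P + 2 h Q + C` (`h (P + Q) ≥ 0`), `h (P + P) ≥ 4 h P - h 0 - C` (`Q = P`).  `G / 2 G` is finite
(`AddGroup.FG`; the quotient is a finitely generated torsion group: Mathlib `AddCommGroup.finite_of_fg_torsion` or
`Module.finite_of_fg_torsion`), let `γ_1, ..., γ_s` be representatives, `s ≥ 1`, and `C' = max over i of (2 h γ_i) + 2 C + h 0`.  If `h P ≤ T` write
`P = γ_i + Q + Q`; then `4 h Q ≤ h (Q + Q) + h 0 + C ≤ 2 h P + 2 h γ_i + 2 C + h 0 ≤ 2 T + C'`, so `h Q ≤ T / 2 + C'`.  So with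
`n T` the number of the points with `h ≤ T` one has `n T ≤ s n (T / 2 + C')` (the map `P ↦ (i, Q)` is injective).  With
`T = 2 C' + t`: `T / 2 + C' = 2 C' + t / 2`.  So `m t = n (2 C' + t)` satisfies `m t ≤ s m (t / 2)`, `m t ≤ s ^ j m (t / 2 ^ j)`, and for
`t ≥ 1`, `j = ⌈logb 2 t⌉₊`, `m t ≤ s ^ j m 1 ≤ s s ^ (logb 2 t) m 1 = s t ^ (logb 2 s) m 1`; so `κ = ⌈logb 2 s⌉₊`.  For all `T ≥ 0`
use `n T ≤ m (T + 1)`. -/
theorem P1 {G : Type u} [AddCommGroup G] (hG : (⊤ : AddSubgroup G).FG) (h : G → ℝ) (h0 : ∀ P, 0 ≤ h P) (C : ℝ)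
    (hC : ∀ P Q, |h (P + Q) + h (P - Q) - 2 * h P - 2 * h Q| ≤ C)
    (hN : ∀ T : ℝ, {P | h P ≤ T}.Finite) :
    ∃ (C' : ℝ) (κ : ℕ), 0 ≤ C' ∧ ∀ T : ℝ, 0 ≤ T → (Nat.card {P // h P ≤ T} : ℝ) ≤ C' * (1 + T) ^ κ := by
  classical
  obtain ⟨R, hR⟩ := P1_rep hG
  have hC0 : 0 ≤ C := (abs_nonneg _).trans (hC 0 0)
  obtain ⟨M, hM⟩ : ∃ M : ℝ, M = ∑ γ ∈ R, h γ := ⟨_, rfl⟩
  have hM0 : 0 ≤ M := by
    rw [hM]
    exact Finset.sum_nonneg fun γ _ => h0 γ
  have hMle : ∀ γ ∈ R, h γ ≤ M := by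
    intro γ hγ
    rw [hM]
    exact Finset.single_le_sum (f := h) (fun x _ => h0 x) hγ
  obtain ⟨c, hc⟩ : ∃ c : ℝ, c = (2 * M + 2 * C + h 0) / 4 := ⟨_, rfl⟩
  have hc0 : 0 ≤ c := by
    have := h0 0
    rw [hc]
    linarith
  obtain ⟨n, hn⟩ : ∃ n : ℝ → ℝ, n = fun T => (((hN T).toFinset.card : ℕ) : ℝ) := ⟨_, rfl⟩
  have hn0 : ∀ T, 0 ≤ n T := by
    intro T
    rw [hn]
    positivity
  have hmono : ∀ T T', T ≤ T' → n T ≤ n T' := by
    intro T T' hTT
    rw [hn]
    dsimp only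
    refine Nat.cast_le.mpr (Finset.card_le_card fun P hP => ?_)
    rw [Set.Finite.mem_toFinset] at hP ⊢
    exact le_trans hP hTT
  have hstep : ∀ T, n T ≤ R.card * n (T / 2 + c) := by
    intro T
    have h1 : (hN T).toFinset ⊆ (R ×ˢ (hN (T / 2 + c)).toFinset).image fun x => x.1 + (x.2 + x.2) := by
      intro P hP
      rw [Set.Finite.mem_toFinset] at hP
      have hPT : h P ≤ T := hP
      obtain ⟨γ, hγ, Q, hQ⟩ := hR P
      refine Finset.mem_image.mpr ⟨(γ, Q), Finset.mem_product.mpr ⟨hγ, ?_⟩, hQ.symm⟩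
      rw [Set.Finite.mem_toFinset]
      show h Q ≤ T / 2 + c
      have h2 := (abs_le.mp (hC Q Q)).1
      rw [sub_self] at h2
      have h3 := (abs_le.mp (hC P γ)).2
      have h4 : P - γ = Q + Q := by
        rw [hQ]
        abel
      rw [h4] at h3
      have h5 := h0 (P + γ)
      have h6 := hMle γ hγ
      rw [hc]
      linarith
    have h2 := (Finset.card_le_card h1).trans Finset.card_image_le
    rw [Finset.card_product] at h2
    rw [hn]
    dsimp only
    exact_mod_cast h2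
  have hit : ∀ (j : ℕ) (t : ℝ), n (2 * c + t) ≤ (R.card : ℝ) ^ j * n (2 * c + t / 2 ^ j) := by
    intro j
    induction j with
    | zero =>
      intro t
      simp
    | succ j ih =>
      intro t
      refine (ih t).trans ?_
      rw [pow_succ, mul_assoc]
      refine mul_le_mul_of_nonneg_left ?_ (by positivity)
      have h1 := hstep (2 * c + t / 2 ^ j)
      have h2 : (2 * c + t / 2 ^ j) / 2 + c = 2 * c + t / 2 ^ (j + 1) := by
        rw [pow_succ]
        field_simp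
        ring
      rwa [h2] at h1
  refine ⟨2 ^ R.card * n (2 * c + 1), R.card, mul_nonneg (by positivity) (hn0 _), fun T hT => ?_⟩
  have hcard : (Nat.card {P // h P ≤ T} : ℝ) = n T := by
    rw [hn]
    dsimp only
    have h1 : Nat.card {P // h P ≤ T} = Set.ncard {P | h P ≤ T} := rfl
    rw [h1, Set.ncard_eq_toFinset_card _ (hN T)]
  rw [hcard]
  obtain ⟨i, hi1, hi2⟩ := exists_nat_pow_near (show (1 : ℝ) ≤ 1 + T by linarith) (show (1 : ℝ) < 2 by norm_num)
  have h1 : n T ≤ n (2 * c + T) := hmono _ _ (by linarith)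
  have h2 := hit (i + 1) T
  have h3 : n (2 * c + T / 2 ^ (i + 1)) ≤ n (2 * c + 1) := by
    apply hmono
    have h4 : T / 2 ^ (i + 1) ≤ 1 := by
      rw [div_le_one (by positivity)]
      linarith
    linarith
  have h4 : (R.card : ℝ) ^ (i + 1) ≤ 2 ^ R.card * (1 + T) ^ R.card := by
    have h5 : (R.card : ℝ) ≤ 2 ^ R.card := by
      have := (Nat.lt_two_pow_self (n := R.card)).le
      exact_mod_cast this
    calc (R.card : ℝ) ^ (i + 1) ≤ (2 ^ R.card) ^ (i + 1) := pow_le_pow_left₀ (by positivity) h5 _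
      _ = 2 ^ R.card * (2 ^ i) ^ R.card := by
          rw [← pow_mul, ← pow_mul, ← pow_add]
          congr 1
          ring
      _ ≤ 2 ^ R.card * (1 + T) ^ R.card := by
          gcongr
  calc n T ≤ (R.card : ℝ) ^ (i + 1) * n (2 * c + T / 2 ^ (i + 1)) := h1.trans h2
    _ ≤ (2 ^ R.card * (1 + T) ^ R.card) * n (2 * c + 1) :=
        mul_le_mul h4 h3 (hn0 _) (by positivity)
    _ = 2 ^ R.card * n (2 * c + 1) * (1 + T) ^ R.card := by ring

end UVB
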