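import Mathlib

/-!
uv2, leaf P1s: convergence of a sum over points.
-/

universe u

namespace UVB


private theorem P1s_summable (C' : ℝ) (κ : ℕ) (σ : ℝ) (hσ : 0 < σ) :
    Summable fun j : ℕ => C' * (2 + (j : ℝ)) ^ κ * Real.exp (-(σ * j)) := by
  have h1 := Real.summable_pow_mul_exp_neg_nat_mul κ hσ
  have h2 := (summable_nat_add_iff (f := fun n : ℕ => (n : ℝ) ^ κ * Real.exp (-σ * n)) 2).2 h1
  have h3 := h2.mul_left (C' * Real.exp (2 * σ))
  refine h3.congr fun j => ?_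
  have e1 : Real.exp (-σ * ((j + 2 : ℕ) : ℝ)) * Real.exp (2 * σ) = Real.exp (-(σ * j)) := by
    rw [← Real.exp_add]
    congr 1
    push_cast
    ring
  calc C' * Real.exp (2 * σ) * (((j + 2 : ℕ) : ℝ) ^ κ * Real.exp (-σ * ((j + 2 : ℕ) : ℝ)))
      = C' * ((j + 2 : ℕ) : ℝ) ^ κ * (Real.exp (-σ * ((j + 2 : ℕ) : ℝ)) * Real.exp (2 * σ)) := by ring
    _ = C' * (2 + (j : ℝ)) ^ κ * Real.exp (-(σ * j)) := by
      rw [e1]
      push_cast
      ring

/-- The sums of `exp (- σ h)` are bounded.  PROOF.  `s` is the disjoint union of the `s ∩ {j ≤ h < j + 1}`, `j = ⌊h P⌋₊`; the sum is at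
most `∑_j C' (2 + j) ^ κ exp (- σ j)`, which converges (`summable_pow_mul_exp_neg_nat_mul` or `Real.summable_pow_mul_exp_neg_nat_mul`). -/
theorem P1s {G : Type u} (h : G → ℝ) (h0 : ∀ P, 0 ≤ h P) (C' : ℝ) (κ : ℕ)
    (hN : ∀ T : ℝ, {P | h P ≤ T}.Finite)
    (hc : ∀ T : ℝ, 0 ≤ T → (Nat.card {P // h P ≤ T} : ℝ) ≤ C' * (1 + T) ^ κ) (σ : ℝ) (hσ : 0 < σ) :
    ∃ C : ℝ, 0 ≤ C ∧ ∀ s : Finset G, ∑ P ∈ s, Real.exp (-(σ * h P)) ≤ C := by
  classical
  have hC0 : 0 ≤ C' := by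
    have h1 := hc 0 le_rfl
    rw [add_zero, one_pow, mul_one] at h1
    exact (Nat.cast_nonneg _).trans h1
  have hS := P1s_summable C' κ σ hσ
  have hf0 : ∀ j : ℕ, 0 ≤ C' * (2 + (j : ℝ)) ^ κ * Real.exp (-(σ * j)) := fun j => by positivity
  refine ⟨∑' j : ℕ, C' * (2 + (j : ℝ)) ^ κ * Real.exp (-(σ * j)), tsum_nonneg hf0, fun s => ?_⟩
  have h1 : ∀ P ∈ s, ⌊h P⌋₊ ∈ s.image fun P => ⌊h P⌋₊ := fun P hP => Finset.mem_image_of_mem _ hP
  rw [← Finset.sum_fiberwise_of_maps_to h1]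
  refine le_trans (Finset.sum_le_sum fun j _ => ?_) (hS.sum_le_tsum _ fun j _ => hf0 j)
  have h2 : ∀ P ∈ s.filter (fun P => ⌊h P⌋₊ = j), Real.exp (-(σ * h P)) ≤ Real.exp (-(σ * j)) := by
    intro P hP
    rw [Finset.mem_filter] at hP
    have h3 : (j : ℝ) ≤ h P := by
      rw [← hP.2]
      exact Nat.floor_le (h0 P)
    rw [Real.exp_le_exp]
    nlinarith
  have h4 : ((s.filter (fun P => ⌊h P⌋₊ = j)).card : ℝ) ≤ C' * (2 + (j : ℝ)) ^ κ := by
    have h5 : ((s.filter (fun P => ⌊h P⌋₊ = j)).card : ℝ) ≤ (Nat.card {P // h P ≤ (j : ℝ) + 1} : ℝ) := by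
      have h6 : (s.filter (fun P => ⌊h P⌋₊ = j)).card ≤ Nat.card {P // h P ≤ (j : ℝ) + 1} := by
        have hfin : {P | h P ≤ (j : ℝ) + 1}.Finite := hN _
        have h7 : ((s.filter (fun P => ⌊h P⌋₊ = j) : Finset G) : Set G) ⊆ {P | h P ≤ (j : ℝ) + 1} := by
          intro P hP
          rw [Finset.mem_coe, Finset.mem_filter] at hP
          have h8 : h P < (⌊h P⌋₊ : ℝ) + 1 := Nat.lt_floor_add_one _
          rw [hP.2] at h8
          exact h8.le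
        have h9 := Set.ncard_le_ncard h7 hfin
        rw [Set.ncard_coe_finset] at h9
        exact h9
      exact_mod_cast h6
    refine h5.trans ?_
    have h10 := hc ((j : ℝ) + 1) (by positivity)
    rwa [show (1 : ℝ) + ((j : ℝ) + 1) = 2 + j from by ring] at h10
  calc ∑ P ∈ s.filter (fun P => ⌊h P⌋₊ = j), Real.exp (-(σ * h P))
      ≤ ∑ _P ∈ s.filter (fun P => ⌊h P⌋₊ = j), Real.exp (-(σ * j)) := Finset.sum_le_sum h2
    _ = ((s.filter (fun P => ⌊h P⌋₊ = j)).card : ℝ) * Real.exp (-(σ * j)) := by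
        rw [Finset.sum_const, nsmul_eq_mul]
    _ ≤ C' * (2 + (j : ℝ)) ^ κ * Real.exp (-(σ * j)) :=
        mul_le_mul_of_nonneg_right h4 (Real.exp_pos _).le

end UVB
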