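import Pool.Agent.Lib.MP_17a322_ntU2.P1
import Pool.Agent.Lib.MP_17a322_ntU2.P2a
import Pool.Agent.Lib.MP_17a322_nt.VA.A6

/-!
uv2, leaf P2: the number of the rational points of bounded height of an abelian variety.
-/

universe u

namespace UVB

open Height
open Pool.Agent.Lib.MP_17a322_nt.VA

/-- PROOF.  P1 with `h P = logHeight (A.x P)` (`AV.h`), `AV.parallelogram` (VA/A6) for `L = K`, `Height.logHeight_nonneg`. -/
theorem P2 {K : Type u} [Field K] [NumberField K] {N : ℕ} (A : AV K N)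
    (hA : (⊤ : AddSubgroup (A.Pts K)).FG) :
    ∃ (C' : ℝ) (κ : ℕ), 0 ≤ C' ∧ ∀ T : ℝ, 0 ≤ T →
      (Nat.card {P : A.Pts K // logHeight (A.x P) ≤ T} : ℝ) ≤ C' * (1 + T) ^ κ := by
  obtain ⟨C, _, hC⟩ := A.parallelogram
  exact P1 hA (fun P => logHeight (A.x P)) (fun P => AV.h_nonneg P) (C * Module.finrank ℚ K)
    (fun P Q => hC K P Q) (fun T => P2a A T)

end UVB
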