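import Pool.Agent.Lib.MP_17a322_ntU2.Defs0

/-!
uv2, leaf Q1a: sizes of the coefficients.
-/

universe u

namespace UVB

open NumberField Height

private theorem Q1a_fin {K : Type u} [Field K] [NumberField K] (v : FinitePlace K) (x : 𝓞 K) :
    v (algebraMap (𝓞 K) K x) ≤ 1 := by
  rw [← FinitePlace.norm_embedding_eq]
  exact FinitePlace.norm_le_one K _ x

private theorem Q1a_inf {K : Type u} [Field K] [NumberField K] {e : ℕ} (ω : Module.Basis (Fin e) ℤ (𝓞 K))
    {ι : Type} (H : ℕ) (a : ι × Fin e → ℤ) (ha : ∀ i, |a i| ≤ (H : ℤ)) (v : InfinitePlace K) (i : ι) :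
    v (ck ω a i) ≤ (∑ k, v (algebraMap (𝓞 K) K (ω k))) * H := by
  unfold ck co
  rw [map_sum, Finset.sum_mul]
  refine (v.1.sum_le _ _).trans (Finset.sum_le_sum fun k _ => ?_)
  rw [zsmul_eq_mul, map_mul, map_intCast]
  have h1 : v.1 ((a (i, k) : K) * algebraMap (𝓞 K) K (ω k))
      = v.1 (a (i, k) : K) * v.1 (algebraMap (𝓞 K) K (ω k)) := map_mul v.1 _ _
  rw [h1, mul_comm]
  have h2 : v.1 (a (i, k) : K) ≤ (H : ℝ) := by
    have h3 : v.1 (a (i, k) : K) = |(a (i, k) : ℝ)| := by
      have := InfinitePlace.norm_embedding_eq v (a (i, k) : K)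
      rw [map_intCast] at this
      have h4 : v (a (i, k) : K) = v.1 (a (i, k) : K) := rfl
      rw [← h4, ← this]
      simp
    rw [h3]
    exact_mod_cast ha (i, k)
  exact mul_le_mul_of_nonneg_left h2 (v.1.nonneg _)

/-- Sizes of the coefficients.  PROOF.  `ck ω a i` is the image of an integer of `K`, so its absolute values at the finite places are at most `1`
(`FinitePlace`: `NumberField.FinitePlace.norm_le_one` or `HeightOneSpectrum.valuation_le_one`), and at the infinite places at most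
`∑ k, |a (i, k)| v (ω k) ≤ H ∑ k, v (ω k)`.  `⨆` over a nonempty finite type (`Mo N n` is nonempty), `ciSup_le`; if `ι` is empty the
`⨆` is `0`. -/
theorem Q1a {K : Type u} [Field K] [NumberField K] {e : ℕ} (ω : Module.Basis (Fin e) ℤ (𝓞 K)) :
    ∃ C : ℝ, 1 ≤ C ∧ ∀ (ι : Type) [Fintype ι] (H : ℕ) (a : ι × Fin e → ℤ), (∀ i, |a i| ≤ (H : ℤ)) →
      (∀ v : InfinitePlace K, (⨆ i, v (ck ω a i)) ≤ C * H) ∧
      ∀ v : FinitePlace K, (⨆ i, v (ck ω a i)) ≤ 1 := by
  classical
  have hn : ∀ v : InfinitePlace K, 0 ≤ ∑ k, v (algebraMap (𝓞 K) K (ω k)) := fun v =>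
    Finset.sum_nonneg fun k _ => apply_nonneg v _
  refine ⟨1 + ∑ v : InfinitePlace K, ∑ k, v (algebraMap (𝓞 K) K (ω k)), ?_, ?_⟩
  · have := Finset.sum_nonneg fun (v : InfinitePlace K) (_ : v ∈ Finset.univ) => hn v
    linarith
  · intro ι _ H a ha
    constructor
    · intro v
      have h1 : ∑ k, v (algebraMap (𝓞 K) K (ω k))
          ≤ ∑ w : InfinitePlace K, ∑ k, w (algebraMap (𝓞 K) K (ω k)) :=
        Finset.single_le_sum (f := fun w : InfinitePlace K => ∑ k, w (algebraMap (𝓞 K) K (ω k)))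
          (fun w _ => hn w) (Finset.mem_univ v)
      have h0 := hn v
      refine Real.iSup_le (fun i => (Q1a_inf ω H a ha v i).trans ?_) ?_
      · exact mul_le_mul_of_nonneg_right (by linarith) (Nat.cast_nonneg _)
      · exact mul_nonneg (by linarith) (Nat.cast_nonneg _)
    · intro v
      exact Real.iSup_le (fun i => Q1a_fin v _) zero_le_one

end UVB
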