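import Pool.Agent.Lib.MP_17a322_ntU2.Defs0

/-!
uv2, leaf T0: elementary facts on `cnt`.
-/

universe u

namespace UVB

open NumberField

private theorem T0_eq {ι : Type} (H : ℕ) (p : (ι → ℤ) → Prop) :
    cnt H p = {a : ι → ℤ | (∀ i, |a i| ≤ (H : ℤ)) ∧ p a}.ncard := Nat.card_coe_set_eq _

private theorem T0_box {ι : Type} [Fintype ι] (H : ℕ) :
    {a : ι → ℤ | ∀ i, |a i| ≤ (H : ℤ)}.Finite := by
  refine (Set.Finite.pi' fun _ : ι => Set.finite_Icc (-(H : ℤ)) (H : ℤ)).subset fun a ha i => ?_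
  exact abs_le.1 (ha i)

private theorem T0_fin {ι : Type} [Fintype ι] (H : ℕ) (p : (ι → ℤ) → Prop) :
    {a : ι → ℤ | (∀ i, |a i| ≤ (H : ℤ)) ∧ p a}.Finite :=
  (T0_box H).subset fun _ ha => ha.1

/-- `cnt` is monotone.  PROOF.  The set of the `a` with `|a i| ≤ H` is finite (`Set.Finite.subset` of
`Fintype.piFinset fun _ => Finset.Icc (-H) H`, or `Set.Finite.pi'` with `Set.finite_Icc`), then `Nat.card_mono` (for sets) or
`Nat.card_le_card_of_injective`. -/
theorem cnt_mono {ι : Type} [Fintype ι] (H : ℕ) {p q : (ι → ℤ) → Prop} (h : ∀ a, p a → q a) :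
    cnt H p ≤ cnt H q := by
  rw [T0_eq, T0_eq]
  exact Set.ncard_le_ncard (fun a ha => ⟨ha.1, h a ha.2⟩) (T0_fin H q)

/-- The same for an implication that is needed in the box only. -/
theorem cnt_mono' {ι : Type} [Fintype ι] (H : ℕ) {p q : (ι → ℤ) → Prop}
    (h : ∀ a, (∀ i, |a i| ≤ (H : ℤ)) → p a → q a) : cnt H p ≤ cnt H q := by
  rw [T0_eq, T0_eq]
  exact Set.ncard_le_ncard (fun a ha => ⟨ha.1, h a ha.1 ha.2⟩) (T0_fin H q)

/-- The union bound for two properties. -/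
theorem cnt_or {ι : Type} [Fintype ι] (H : ℕ) (p q : (ι → ℤ) → Prop) :
    cnt H (fun a => p a ∨ q a) ≤ cnt H p + cnt H q := by
  rw [T0_eq, T0_eq, T0_eq]
  refine le_trans (Set.ncard_le_ncard ?_ ((T0_fin H p).union (T0_fin H q)))
    (Set.ncard_union_le _ _)
  rintro a ⟨h1, h2 | h2⟩
  · exact Or.inl ⟨h1, h2⟩
  · exact Or.inr ⟨h1, h2⟩

/-- The union bound for a finite set of properties.  PROOF: induction on `s` with `cnt_or`. -/
theorem cnt_exists {κ : Type*} {ι : Type} [Fintype ι] (H : ℕ) (s : Finset κ) (p : κ → (ι → ℤ) → Prop) :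
    cnt H (fun a => ∃ k ∈ s, p k a) ≤ ∑ k ∈ s, cnt H (p k) := by
  classical
  induction s using Finset.induction_on with
  | empty =>
    rw [Finset.sum_empty, T0_eq, Nat.le_zero, Set.ncard_eq_zero (T0_fin H _)]
    refine Set.eq_empty_of_forall_notMem ?_
    rintro a ⟨_, k, hk, _⟩
    exact absurd hk (Finset.notMem_empty k)
  | insert k s hk ih =>
    rw [Finset.sum_insert hk]
    refine le_trans (cnt_mono H (q := fun a => p k a ∨ ∃ k ∈ s, p k a) ?_)
      ((cnt_or H _ _).trans (Nat.add_le_add_left ih _))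
    rintro a ⟨l, hl, hp⟩
    rcases Finset.mem_insert.1 hl with rfl | hl
    · exact Or.inl hp
    · exact Or.inr ⟨l, hl, hp⟩

/-- The trivial bound.  PROOF.  `(2 H + 1) ^ #ι ≤ (3 H) ^ #ι` for `H ≥ 1`. -/
theorem cnt_le {ι : Type} [Fintype ι] (H : ℕ) (hH : 1 ≤ H) (p : (ι → ℤ) → Prop) :
    cnt H p ≤ 3 ^ Fintype.card ι * H ^ Fintype.card ι := by
  classical
  rw [T0_eq, ← mul_pow]
  have h1 : {a : ι → ℤ | (∀ i, |a i| ≤ (H : ℤ)) ∧ p a} ⊆
      (Fintype.piFinset fun _ : ι => Finset.Icc (-(H : ℤ)) (H : ℤ) : Finset (ι → ℤ)) := by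
    rintro a ⟨ha, _⟩
    rw [Finset.mem_coe, Fintype.mem_piFinset]
    intro i
    rw [Finset.mem_Icc]
    exact abs_le.1 (ha i)
  refine (Set.ncard_le_ncard h1 (Finset.finite_toSet _)).trans ?_
  rw [Set.ncard_coe_finset, Fintype.card_piFinset, Finset.prod_const, Int.card_Icc, Finset.card_univ]
  refine Nat.pow_le_pow_left ?_ _
  omega

end UVB
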