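import Pool.Agent.Lib.MP_17a322_ntU2.Defs0

/-!
uv2, leaf T3a: a nonzero integer at a finite place.
-/

universe u

namespace UVB

open NumberField

private theorem T3a_le_one {K : Type u} [Field K] [NumberField K] (w : FinitePlace K) (m : ℤ) :
    w (m : K) ≤ 1 := by
  have h := FinitePlace.norm_le_one K (FinitePlace.maximalIdeal w) (m : 𝓞 K)
  rwa [map_intCast, FinitePlace.norm_embedding_eq] at h

/-- The absolute value at a finite place of a nonzero integer is at least `|m| ^ (- [K : ℚ])`.
PROOF.  Product formula for `(m : K)`: the product of `v m` over the finite places times the product of `v m ^ mult` over the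
infinite places is `1` (`NumberField.prod_abs_eq_one`), the second is `|m| ^ [K : ℚ]` (`v m = |m|`, `Σ mult = [K : ℚ]`), and all
factors of the first are at most `1` (`FinitePlace.norm_le_one` / `NumberField.FinitePlace`, `m` is in `𝓞 K`), so their product is
at most the factor at `v` (`finprod` over a finite support).  Alternatively `FinitePlace.norm_eq_...`: `v m` is `N𝔭 ^ (-ord)` and
`N𝔭 ^ ord` divides the norm `|m| ^ [K : ℚ]` of `m`. -/
theorem T3a {K : Type u} [Field K] [NumberField K] (v : FinitePlace K) (m : ℤ) (hm : m ≠ 0) :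
    1 ≤ v (m : K) * |(m : ℝ)| ^ Module.finrank ℚ K := by
  classical
  have hmK : (m : K) ≠ 0 := Int.cast_ne_zero.2 hm
  have h1 := FinitePlace.prod_eq_inv_abs_norm hmK
  have h2 : Algebra.norm ℚ (m : K) = (m : ℚ) ^ Module.finrank ℚ K := by
    have := Algebra.norm_algebraMap (R := ℚ) (S := K) (m : ℚ)
    rwa [map_intCast] at this
  have h3 : ((|Algebra.norm ℚ (m : K)| : ℚ) : ℝ) = |(m : ℝ)| ^ Module.finrank ℚ K := by
    rw [h2, abs_pow]
    push_cast
    rfl
  have hfin := FinitePlace.hasFiniteMulSupport hmK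
  have h4 : ∏ᶠ w : FinitePlace K, w (m : K) ≤ v (m : K) := by
    have hsub : Function.mulSupport (fun w : FinitePlace K => w (m : K)) ⊆
        ((insert v hfin.toFinset : Finset (FinitePlace K)) : Set (FinitePlace K)) := by
      intro w hw
      rw [Finset.coe_insert, Set.Finite.coe_toFinset]
      exact Set.mem_insert_of_mem _ hw
    rw [finprod_eq_prod_of_mulSupport_subset _ hsub,
      ← Finset.mul_prod_erase _ _ (Finset.mem_insert_self v _)]
    have h5 : ∏ w ∈ (insert v hfin.toFinset).erase v, w (m : K) ≤ 1 :=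
      Finset.prod_le_one (fun w _ => apply_nonneg _ _) fun w _ => T3a_le_one w m
    calc v (m : K) * ∏ w ∈ (insert v hfin.toFinset).erase v, w (m : K) ≤ v (m : K) * 1 :=
          mul_le_mul_of_nonneg_left h5 (apply_nonneg _ _)
      _ = v (m : K) := mul_one _
  rw [h1, Rat.cast_inv, h3] at h4
  have hm0 : (0 : ℝ) < |(m : ℝ)| ^ Module.finrank ℚ K :=
    pow_pos (abs_pos.2 (Int.cast_ne_zero.2 hm)) _
  calc (1 : ℝ) = (|(m : ℝ)| ^ Module.finrank ℚ K)⁻¹ * |(m : ℝ)| ^ Module.finrank ℚ K :=
        (inv_mul_cancel₀ hm0.ne').symm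
    _ ≤ _ := mul_le_mul_of_nonneg_right h4 hm0.le

end UVB
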